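import Pool.Agent.TH547.Arc.Piece
import Pool.Agent.TH628.J873
import Pool.Agent.TH286.J835
set_option autoImplicit false

/-! Region words from words: basic lemmas. -/
namespace Pool.Agent.TH295.J1112

open Finset Equiv
open Pool.Agent.TH547.Arc
open Pool.Agent.TH286.J795 (own_self own_spec)

section
variable {θ : Perm Sy} {E : RW}

theorem mem_right {s t : Sy} (h : E.R s t) : t ∈ E.w.x := E.mem' _ _ (E.symm' _ _ h)

theorem kap_find {s : Sy} (hs : s ∈ E.w.x) : E.R s (E.kap s) ∧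
    ∀ u, E.R s u → E.w.x.idxOf (E.kap s) ≤ E.w.x.idxOf u := by
  classical
  have h1 : (E.w.x.find? (fun t => decide (E.R s t))).isSome := by
    rw [List.find?_isSome]
    exact ⟨s, hs, by simpa using E.rfl' s hs⟩
  obtain ⟨t, ht⟩ := Option.isSome_iff_exists.1 h1
  have hk : E.kap s = t := by
    unfold RW.kap
    have ht' : E.w.x.find? (fun t => @decide (E.R s t) (Classical.propDecidable _)) = some t := by
      rw [← ht]
    rw [ht', Option.getD_some]
  rw [hk]
  obtain ⟨h2, l1, l2, h3, h4⟩ := List.find?_eq_some_iff_append.1 ht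
  refine ⟨by simpa using h2, fun u hu => ?_⟩
  have hu1 : u ∉ l1 := by
    intro hm
    have := h4 u hm
    simp [hu] at this
  have ht1 : t ∉ l1 := by
    intro hm
    have := h4 t hm
    rw [h2] at this
    simp at this
  rw [h3, List.idxOf_append_of_notMem ht1, List.idxOf_append_of_notMem hu1]
  simp

theorem kap_R {s : Sy} (hs : s ∈ E.w.x) : E.R s (E.kap s) := (kap_find hs).1

theorem kap_mem {s : Sy} (hs : s ∈ E.w.x) : E.kap s ∈ E.w.x := mem_right (kap_R hs)

theorem mem_reps {s : Sy} : s ∈ E.reps ↔ s ∈ E.w.x ∧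
    ∀ t, E.R s t → E.w.x.idxOf s ≤ E.w.x.idxOf t := by
  classical
  unfold RW.reps
  rw [Finset.mem_filter, List.mem_toFinset]

theorem kap_reps {s : Sy} (hs : s ∈ E.w.x) : E.kap s ∈ E.reps := by
  rw [mem_reps]
  refine ⟨kap_mem hs, fun t ht => (kap_find hs).2 t ?_⟩
  exact E.trans' _ _ _ (kap_R hs) ht

theorem kap_eq {s t : Sy} (hs : s ∈ E.w.x) (ht : t ∈ E.w.x) : E.kap s = E.kap t ↔ E.R s t := by
  constructor
  · intro h
    have h1 := kap_R hs
    rw [h] at h1
    exact E.trans' _ _ _ h1 (E.symm' _ _ (kap_R ht))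
  · intro h
    have h1 := (kap_find hs).2 _ (E.trans' _ _ _ h (kap_R ht))
    have h2 := (kap_find ht).2 _ (E.trans' _ _ _ (E.symm' _ _ h) (kap_R hs))
    exact (List.idxOf_inj (kap_mem hs)).1 (le_antisymm h1 h2)

theorem kap_rep {t : Sy} (ht : t ∈ E.reps) : t ∈ E.w.x ∧ E.kap t = t := by
  rw [mem_reps] at ht
  refine ⟨ht.1, ?_⟩
  have h1 := ht.2 _ (kap_R ht.1)
  have h2 := (kap_find ht.1).2 t (E.rfl' _ ht.1)
  exact (List.idxOf_inj (kap_mem ht.1)).1 (le_antisymm h2 h1)

theorem EnvR.envK (hE : EnvR θ E) : EnvK θ E.w E.kap where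
  flip := hE.flip
  pres := hE.pres
  fixm := hE.fixm
  last := hE.good.2.2.2
  inv := by
    intro s hs
    have h := hE.good.1 s hs
    exact (kap_eq (mem_right h) hs).2 (E.symm' _ _ h)

theorem PC_reps : PC E.w E.kap E.reps = E.w.x.toFinset := by
  classical
  unfold PC
  rw [Finset.filter_eq_self]
  intro s hs
  exact kap_reps (List.mem_toFinset.1 hs)

theorem mem_cls {s t : Sy} : t ∈ E.cls s ↔ E.R s t := by
  classical
  unfold RW.cls
  rw [Finset.mem_filter, List.mem_toFinset]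
  exact ⟨fun h => h.2, fun h => ⟨mem_right h, h⟩⟩

theorem ncy_pos {α : Type} (σ : Perm α) {A : Finset α} (h : A.Nonempty) : 1 ≤ ncy σ A := by
  classical
  unfold ncy
  exact Finset.card_pos.2 (h.image _)

theorem chi_le (hG : RW.Good θ E) {s : Sy} (hs : s ∈ E.w.x) : E.χ s ≤ 1 := by
  obtain ⟨h, hh⟩ := hG.2.1 s hs
  have h1 := ncy_pos (fp θ E.w.x) (A := E.cls s) ⟨s, mem_cls.2 (E.rfl' s hs)⟩
  omega

theorem rk_nonneg (hG : RW.Good θ E) : 0 ≤ E.rk := by
  classical
  unfold RW.rk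
  refine add_nonneg (Finset.sum_nonneg fun s hs => ?_) (Finset.sum_nonneg fun s hs => ?_)
  · have := chi_le hG (mem_reps.1 hs).1
    omega
  · have h := Finset.card_pos.2 (Finset.mem_filter.1 hs).2
    omega

theorem rk_cE (hG : RW.Good θ E) (hdf : E.df = 0) :
    E.rk = ((∑ t ∈ E.reps, (cE E t - (E.w.ord.length + 1)) : ℕ) : ℤ) := by
  classical
  unfold RW.rk
  have h2 : ∑ s ∈ E.reps.filter (fun s => (E.S s).Nonempty), (((E.S s).card : ℤ) - 1) = 0 := by
    refine Finset.sum_eq_zero fun s hs => ?_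
    rw [Finset.mem_filter] at hs
    have h3 := (Finset.sum_eq_zero_iff.1 hdf) s hs.1
    have h4 := Finset.card_pos.2 hs.2
    omega
  rw [h2, add_zero, Nat.cast_sum]
  refine Finset.sum_congr rfl fun t ht => ?_
  have := chi_le hG (mem_reps.1 ht).1
  unfold cE
  omega

theorem sdiff_DC {t : Sy} (ht : t ∈ E.reps) :
    E.w.x.toFinset \ DC E.w E.kap {t} = E.cls t := by
  classical
  ext s
  rw [mem_cls]
  unfold DC
  rw [Finset.mem_sdiff, Finset.mem_filter, List.mem_toFinset, Finset.mem_singleton]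
  obtain ⟨h1, h2⟩ := kap_rep ht
  constructor
  · rintro ⟨hs, h⟩
    have h3 : E.kap s = t := by
      by_contra h4
      exact h ⟨hs, h4⟩
    rw [← h2] at h3
    exact E.symm' _ _ ((kap_eq hs h1).1 h3)
  · intro h
    have hs := mem_right h
    refine ⟨hs, fun h3 => h3.2 ?_⟩
    rw [(kap_eq hs h1).2 (E.symm' _ _ h), h2]

theorem cE_parity (hE : EnvR θ E) {t : Sy} (ht : t ∈ E.reps) :
    (nf θ (DC E.w E.kap {t}) E.w.x + E.w.ord.length) % 2 = cE E t % 2 := by
  unfold nf
  rw [sdiff_DC ht]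
  obtain ⟨h, hh⟩ := hE.good.2.1 t (mem_reps.1 ht).1
  have := chi_le hE.good (mem_reps.1 ht).1
  unfold cE
  omega

theorem kE_self (m : Sy) : kE E E.w m = 0 := by
  classical
  unfold kE
  have : (W.nm E.w \ RWS.nm E) = ∅ := Finset.sdiff_self _
  rw [this]
  simp

theorem mkR_self : mkR E E.w = E := by
  classical
  refine RW.ext rfl ?_ ?_ ?_
  · funext s t
    apply propext
    show (s ∈ E.w.x ∧ t ∈ E.w.x ∧ (s = t ∨ ∃ m n, own E.w.x E.w.x s = some m ∧
      own E.w.x E.w.x t = some n ∧ E.R m n)) ↔ E.R s t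
    constructor
    · rintro ⟨h1, h2, rfl | ⟨m, n, h3, h4, h5⟩⟩
      · exact E.rfl' _ h1
      · rw [own_self h1 h1] at h3
        rw [own_self h2 h2] at h4
        cases h3; cases h4; exact h5
    · intro h
      have h1 := E.mem' _ _ h
      have h2 := mem_right h
      exact ⟨h1, h2, Or.inr ⟨s, t, own_self h1 h1, own_self h2 h2, h⟩⟩
  · funext s
    show (if s ∈ E.w.x then (((own E.w.x E.w.x s).map (fun m => E.χ m + kE E E.w m)).getD 0)
      else 0) = E.χ s
    by_cases hs : s ∈ E.w.x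
    · rw [if_pos hs, own_self hs hs, Option.map_some, Option.getD_some, kE_self]
      simp
    · rw [if_neg hs, E.χ_off s hs]
  · funext s
    show (if s ∈ E.w.x then (((own E.w.x E.w.x s).map E.S).getD ∅) else ∅) = E.S s
    by_cases hs : s ∈ E.w.x
    · rw [if_pos hs, own_self hs hs, Option.map_some, Option.getD_some]
    · rw [if_neg hs, E.S_off s hs]

/-- owners exist -/
theorem ow_ex {X : PW} (hX : OvP E.w E.w.x.toFinset X) {s : Sy} (hs : s ∈ X.x) :
    ∃ m ∈ E.w.x, own E.w.x X.x s = some m := by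
  by_cases h : s ∈ E.w.x
  · exact ⟨s, h, own_self h hs⟩
  · obtain ⟨p, hp, h1⟩ := hX.2.2 s hs h
    exact ⟨p, List.mem_toFinset.1 hp, h1⟩

theorem mkR_R {X : PW} (hX : OvP E.w E.w.x.toFinset X) {s t : Sy} (hs : s ∈ X.x) (ht : t ∈ X.x) :
    (mkR E X).R s t ↔ col E.w E.kap X s = col E.w E.kap X t := by
  obtain ⟨m, hm, hm'⟩ := ow_ex hX hs
  obtain ⟨n, hn, hn'⟩ := ow_ex hX ht
  unfold col
  rw [hm', hn', Option.map_some, Option.map_some, Option.some_inj, kap_eq hm hn]
  constructor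
  · rintro ⟨_, _, rfl | ⟨m', n', h1, h2, h3⟩⟩
    · rw [hm'] at hn'
      cases hn'
      exact E.rfl' _ hm
    · rw [hm'] at h1
      rw [hn'] at h2
      cases h1; cases h2; exact h3
  · intro h
    exact ⟨hs, ht, Or.inr ⟨m, n, hm', hn', h⟩⟩

theorem not_ord {X : PW} {a : ℕ} (ha : a ∈ W.nm X \ RWS.nm E) : a ∉ E.w.ord := fun h =>
  (Finset.mem_sdiff.1 ha).2 (List.mem_toFinset.2 h)

theorem end_mem {X : PW} {a : ℕ} (ha : a ∈ W.nm X \ RWS.nm E) (e : Bool) : en a e ∈ X.x :=
  (PW.mem_ord' e).1 (List.mem_toFinset.1 (Finset.mem_sdiff.1 ha).1)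

theorem mem_pdl {X : PW} {a : ℕ} {s : Sy} : s ∈ (X.dl a).x ↔ s ∈ X.x ∧ offA a s = true := by
  show s ∈ X.x.filter (offA a) ↔ _
  rw [List.mem_filter]

theorem own_pdl {X : PW} (hX : OvP E.w E.w.x.toFinset X) {a : ℕ} (ha : a ∈ W.nm X \ RWS.nm E)
    {s : Sy} (hs : s ∈ (X.dl a).x) : own E.w.x (X.dl a).x s = own E.w.x X.x s :=
  Pool.Agent.TH628.J873.OvP.own_dl hX (not_ord ha) (mem_pdl.1 hs).2

theorem mem_kset {X : PW} {m : Sy} {b : ℕ} {inst : DecidablePred
    (fun a => ∃ n, own E.w.x X.x (en a false) = some n ∧ E.R m n)} :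
    b ∈ @Finset.filter ℕ (fun a => ∃ n, own E.w.x X.x (en a false) = some n ∧ E.R m n) inst
      (W.nm X \ RWS.nm E) ↔ b ∈ W.nm X \ RWS.nm E ∧
        ∃ n, own E.w.x X.x (en b false) = some n ∧ E.R m n := by
  rw [Finset.mem_filter]

theorem kE_dl {X : PW} (hX : OvP E.w E.w.x.toFinset X) {a : ℕ} (ha : a ∈ W.nm X \ RWS.nm E)
    {k m : Sy} (hm : own E.w.x X.x (en a false) = some m) :
    (E.R k m → kE E X k = kE E (X.dl a) k + 1) ∧ (¬ E.R k m → kE E (X.dl a) k = kE E X k) := by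
  classical
  have hset : ((W.nm (X.dl a) \ RWS.nm E).filter
      (fun b => ∃ n, own E.w.x (X.dl a).x (en b false) = some n ∧ E.R k n)) =
      ((W.nm X \ RWS.nm E).filter
      (fun b => ∃ n, own E.w.x X.x (en b false) = some n ∧ E.R k n)).erase a := by
    ext b
    rw [Finset.mem_filter, Finset.mem_erase, Finset.mem_filter]
    have h1 : W.nm (X.dl a) = (W.nm X).erase a := Sys.nm_dl (S := W) X a
    rw [h1]
    by_cases hba : b = a
    · subst hba
      simp
    · simp only [Finset.mem_sdiff, Finset.mem_erase, ne_eq, hba, not_false_eq_true, true_and]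
      refine and_congr_right fun hb => ?_
      have h2 : en b false ∈ (X.dl a).x := by
        rw [mem_pdl, offA_en]
        exact ⟨end_mem (Finset.mem_sdiff.2 hb) false, hba⟩
      rw [own_pdl hX ha h2]
  have hk1 : kE E X k = ((W.nm X \ RWS.nm E).filter
      (fun b => ∃ n, own E.w.x X.x (en b false) = some n ∧ E.R k n)).card := by
    unfold kE
    congr 1
  have hk2 : kE E (X.dl a) k = ((W.nm (X.dl a) \ RWS.nm E).filter
      (fun b => ∃ n, own E.w.x (X.dl a).x (en b false) = some n ∧ E.R k n)).card := by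
    unfold kE
    congr 1
  rw [hk1, hk2, hset]
  constructor
  · intro h
    rw [Finset.card_erase_add_one]
    exact mem_kset.2 ⟨ha, m, hm, h⟩
  · intro h
    rw [Finset.erase_eq_of_notMem]
    intro h1
    obtain ⟨_, n, h2, h3⟩ := mem_kset.1 h1
    rw [hm] at h2
    cases h2
    exact h h3

theorem mkR_dl {X : PW} (hX : OvP E.w E.w.x.toFinset X) {a : ℕ} (ha : a ∈ W.nm X \ RWS.nm E)
    (hC : col E.w E.kap X (en a false) = col E.w E.kap X (en a true)) :
    (mkR E X).dl a = mkR E (X.dl a) := by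
  classical
  have h0 := end_mem ha false
  have h1 := end_mem ha true
  obtain ⟨m, hm, hm'⟩ := ow_ex hX h0
  obtain ⟨n, hn, hn'⟩ := ow_ex hX h1
  have hR : (mkR E X).R (en a false) (en a true) := (mkR_R hX h0 h1).2 hC
  have hmn : E.R m n := by
    unfold col at hC
    rw [hm', hn', Option.map_some, Option.map_some, Option.some_inj, kap_eq hm hn] at hC
    exact hC
  have hM : ∀ s, (mkR E X).M a s ↔ (mkR E X).R s (en a false) := by
    intro s
    constructor
    · rintro (h | h)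
      · exact h
      · exact (mkR E X).trans' _ _ _ h ((mkR E X).symm' _ _ hR)
    · intro h
      exact Or.inl h
  -- owners
  have hRo : ∀ s k, s ∈ X.x → own E.w.x X.x s = some k →
      ((mkR E X).R s (en a false) ↔ E.R k m) := by
    intro s k hs hk
    constructor
    · rintro ⟨_, _, rfl | ⟨m', n', h3, h4, h5⟩⟩
      · rw [hk] at hm'
        cases hm'
        exact E.rfl' _ hm
      · rw [hk] at h3
        rw [hm'] at h4
        cases h3; cases h4; exact h5
    · intro h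
      exact ⟨hs, h0, Or.inr ⟨k, m, hk, hm', h⟩⟩
  have hχ0 : (mkR E X).χ (en a false) = E.χ m + kE E X m := by
    show (if en a false ∈ X.x then _ else _) = _
    rw [if_pos h0, hm', Option.map_some, Option.getD_some]
  have hS0 : (mkR E X).S (en a false) = E.S m := by
    show (if en a false ∈ X.x then _ else _) = _
    rw [if_pos h0, hm', Option.map_some, Option.getD_some]
  have hS1 : (mkR E X).S (en a true) = E.S n := by
    show (if en a true ∈ X.x then _ else _) = _
    rw [if_pos h1, hn', Option.map_some, Option.getD_some]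
  refine RW.ext rfl ?_ ?_ ?_
  · funext s t
    apply propext
    show (s ∈ (X.dl a).x ∧ t ∈ (X.dl a).x ∧ ((mkR E X).R s t ∨ ((mkR E X).M a s ∧
      (mkR E X).M a t))) ↔ (s ∈ (X.dl a).x ∧ t ∈ (X.dl a).x ∧ (s = t ∨
      ∃ m n, own E.w.x (X.dl a).x s = some m ∧ own E.w.x (X.dl a).x t = some n ∧ E.R m n))
    refine and_congr_right fun hs => and_congr_right fun ht => ?_
    rw [hM, hM, own_pdl hX ha hs, own_pdl hX ha ht]
    have hsX := (mem_pdl.1 hs).1
    have htX := (mem_pdl.1 ht).1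
    constructor
    · rintro (h | ⟨h, h'⟩)
      · exact h.2.2
      · exact ((mkR E X).trans' _ _ _ h ((mkR E X).symm' _ _ h')).2.2
    · intro h
      exact Or.inl ⟨hsX, htX, h⟩
  · funext s
    show (if s ∈ (X.dl a).x then (if (mkR E X).M a s then (mkR E X).χM a else (mkR E X).χ s)
      else 0) = (if s ∈ (X.dl a).x then
        (((own E.w.x (X.dl a).x s).map (fun m => E.χ m + kE E (X.dl a) m)).getD 0) else 0)
    by_cases hs : s ∈ (X.dl a).x
    · rw [if_pos hs, if_pos hs, own_pdl hX ha hs]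
      have hsX := (mem_pdl.1 hs).1
      obtain ⟨k, hk, hk'⟩ := ow_ex hX hsX
      rw [hk', Option.map_some, Option.getD_some]
      by_cases h : E.R k m
      · have h2 : (mkR E X).M a s := (hM s).2 ((hRo s k hsX hk').2 h)
        have h3 : (mkR E X).χM a = (mkR E X).χ (en a false) - 1 := by
          unfold RW.χM
          rw [if_pos hR]
        have h4 := (kE_dl (k := k) hX ha hm').1 h
        rw [if_pos h2, h3, hχ0, ← E.χ_eq _ _ h, ← kE_congr h, h4]
        push_cast
        ring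
      · have h2 : ¬ (mkR E X).M a s := fun h2 => h ((hRo s k hsX hk').1 ((hM s).1 h2))
        have h4 := (kE_dl (k := k) hX ha hm').2 h
        rw [if_neg h2, h4]
        show (if s ∈ X.x then _ else _) = _
        rw [if_pos hsX, hk', Option.map_some, Option.getD_some]
    · rw [if_neg hs, if_neg hs]
  · funext s
    show (if s ∈ (X.dl a).x then (if (mkR E X).M a s then (mkR E X).S (en a false) ∪
      (mkR E X).S (en a true) else (mkR E X).S s) else ∅) = (if s ∈ (X.dl a).x then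
        (((own E.w.x (X.dl a).x s).map E.S).getD ∅) else ∅)
    by_cases hs : s ∈ (X.dl a).x
    · rw [if_pos hs, if_pos hs, own_pdl hX ha hs]
      have hsX := (mem_pdl.1 hs).1
      obtain ⟨k, hk, hk'⟩ := ow_ex hX hsX
      rw [hk', Option.map_some, Option.getD_some]
      by_cases h : E.R k m
      · have h2 : (mkR E X).M a s := (hM s).2 ((hRo s k hsX hk').2 h)
        rw [if_pos h2, hS0, hS1, ← E.S_eq _ _ hmn, ← E.S_eq _ _ h, Finset.union_self]
      · have h2 : ¬ (mkR E X).M a s := fun h2 => h ((hRo s k hsX hk').1 ((hM s).1 h2))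
        rw [if_neg h2]
        show (if s ∈ X.x then _ else _) = _
        rw [if_pos hsX, hk', Option.map_some, Option.getD_some]
    · rw [if_neg hs, if_neg hs]

theorem CA_dl {X : PW} (hX : OvP E.w E.w.x.toFinset X) (hC : CA E.w E.kap X) {a : ℕ}
    (ha : a ∈ W.nm X \ RWS.nm E) : CA E.w E.kap (X.dl a) := by
  intro b hb
  have h1 : W.nm (X.dl a) = (W.nm X).erase a := Sys.nm_dl (S := W) X a
  rw [h1, Finset.mem_sdiff, Finset.mem_erase] at hb
  have hb' : b ∈ W.nm X \ RWS.nm E := Finset.mem_sdiff.2 ⟨hb.1.2, hb.2⟩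
  have h2 : ∀ e, en b e ∈ (X.dl a).x := by
    intro e
    rw [mem_pdl, offA_en]
    exact ⟨end_mem hb' e, hb.1.1⟩
  have := hC b (Finset.mem_sdiff.2 ⟨hb.1.2, hb.2⟩)
  unfold col at this ⊢
  rw [own_pdl hX ha (h2 _), own_pdl hX ha (h2 _)]
  exact this

theorem eq_of_no_free {X : PW} (hX : OvP E.w E.w.x.toFinset X) (h : W.nm X ⊆ RWS.nm E) :
    X = E.w := by
  refine PW.ext ?_
  rw [← hX.1]
  symm
  rw [List.filter_eq_self]
  intro s hs
  rw [decide_eq_true_eq]
  rcases s with n | ⟨b, e⟩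
  · exact hX.2.1 n hs
  · have h1 : b ∈ W.nm X := List.mem_toFinset.2 ((PW.mem_ord' e).2 hs)
    exact (PW.mem_ord' e).1 (List.mem_toFinset.1 (h h1))

theorem mkR_res {X : PW} (hX : OvP E.w E.w.x.toFinset X) (hC : CA E.w E.kap X) :
    RWS.res (RWS.nm E) (mkR E X) = E := by
  have h := Pool.Agent.TH286.J835.Sys.res_ind (S := RWS) (N := RWS.nm E)
    (p := fun Y => ∃ Z : PW, OvP E.w E.w.x.toFinset Z ∧ CA E.w E.kap Z ∧ Y = mkR E Z)
    (X := mkR E X) ⟨X, hX, hC, rfl⟩ (by
      rintro Y ⟨Z, hZ, hCZ, rfl⟩ a ha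
      have ha' : a ∈ W.nm Z \ RWS.nm E := ha
      refine ⟨Z.dl a, Pool.Agent.TH628.J873.OvP.dl hZ (not_ord ha'), CA_dl hZ hCZ ha', ?_⟩
      exact mkR_dl hZ ha' (hCZ a ha'))
  obtain ⟨Z, hZ, _, hZe⟩ := h
  have h2 := Pool.Agent.TH286.J835.Sys.nm_res (S := RWS) (RWS.nm E) (mkR E X)
  rw [hZe] at h2 ⊢
  have h3 : W.nm Z ⊆ RWS.nm E := by
    have h4 : W.nm Z = RWS.nm (mkR E X) ∩ RWS.nm E := h2
    rw [h4]
    exact Finset.inter_subset_right
  rw [eq_of_no_free hZ h3]
  exact mkR_self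

theorem mkR_loop {X : PW} (hX : OvP E.w E.w.x.toFinset X) (hC : CA E.w E.kap X) {a : ℕ}
    (ha : a ∈ W.nm X \ RWS.nm E) : (mkR E X).Loop a :=
  Or.inl ((mkR_R hX (end_mem ha _) (end_mem ha _)).2 (hC a ha))

theorem kE_eq {X : PW} (hX : OvP E.w E.w.x.toFinset X) {m : Sy} (hm : m ∈ E.w.x) :
    kE E X m = (arcsC E.w E.kap (E.kap m) X).card := by
  classical
  unfold kE arcsC
  congr 1
  ext b
  rw [mem_kset, Finset.mem_filter]
  refine and_congr_right fun hb => ?_
  obtain ⟨n, hn, hn'⟩ := ow_ex hX (end_mem hb false)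
  unfold col
  rw [hn', Option.map_some, Option.some_inj, eq_comm, kap_eq hm hn]
  constructor
  · rintro ⟨k, h1, h2⟩
    cases h1; exact h2
  · intro h
    exact ⟨n, rfl, h⟩

end

end Pool.Agent.TH295.J1112
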