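import Pool.Agent.TH745.J984
import Pool.Agent.TH817.J985
import Pool.Agent.TH286.J835
import Pool.Agent.TH553.J769
import Pool.Agent.TH304.J770
import Pool.Agent.TH304.J771
set_option autoImplicit false

/-! Punctured surfaces: reduction to at most one puncture per region. -/
namespace Pool.Agent.TH295.J986

open Finset Equiv
open Pool.Agent.TH547.Arc

/-! ### interface to the companion jobs -/
section iface

theorem aGood_dl {θ : Perm Sy} {X : RW} {a : ℕ} (hG : RW.Good θ X)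
    (hf : θ (en a false) = en a true ∧ θ (en a true) = en a false) (ha : a ∈ X.w.ord) :
    RW.Good θ (X.dl a) := Pool.Agent.TH745.J984.RW.Good_dl hG hf ha

theorem ark_dl_loop {θ : Perm Sy} {X : RW} {a : ℕ} (hG : RW.Good θ X)
    (hf : θ (en a false) = en a true ∧ θ (en a true) = en a false) (ha : a ∈ X.w.ord)
    (h : X.Loop a) : (X.dl a).rk = X.rk + 1 := Pool.Agent.TH745.J984.RW.rk_dl_loop hG hf ha h

theorem adf_dl_loop {θ : Perm Sy} {X : RW} {a : ℕ} (hG : RW.Good θ X)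
    (hf : θ (en a false) = en a true ∧ θ (en a true) = en a false) (ha : a ∈ X.w.ord)
    (h : X.Loop a) : (X.dl a).df = X.df ∨ (X.dl a).df = X.df + 1 :=
  Pool.Agent.TH745.J984.RW.df_dl_loop hG hf ha h

theorem adf_dl_ne {θ : Perm Sy} {X : RW} {a : ℕ} (hG : RW.Good θ X)
    (hf : θ (en a false) = en a true ∧ θ (en a true) = en a false) (ha : a ∈ X.w.ord)
    (h : X.Loop a) {m : Sy} (hm : m ∈ (X.dl a).w.x) (hne : (X.dl a).S m ≠ X.S m) :
    (X.dl a).df = X.df + 1 := Pool.Agent.TH745.J984.RW.df_dl_ne hG hf ha h hm hne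

theorem aLoop_dl {X : RW} {a : ℕ} (h : X.Loop a) {b : ℕ} (hb : b ∈ X.w.ord) (hab : b ≠ a)
    (ha : a ∈ X.w.ord) : (X.dl a).Loop b ↔ X.Loop b := Pool.Agent.TH745.J984.RW.Loop_dl h hb hab ha

theorem aS_sub {X : RW} {a : ℕ} {m : Sy} (hm : m ∈ (X.dl a).w.x) : X.S m ⊆ (X.dl a).S m :=
  Pool.Agent.TH745.J984.RW.S_sub hm

theorem aS_ne {X : RW} {a : ℕ} (h : X.Loop a) {m : Sy} (hm : m ∈ (X.dl a).w.x)
    (hne : ((X.dl a).S m).Nonempty) : (X.S m).Nonempty := Pool.Agent.TH745.J984.RW.S_ne h hm hne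

theorem aR_of_single {X : RW} {a : ℕ} {θ : Perm Sy} (hG : RW.Good θ X) (ha : a ∈ X.w.ord)
    (h : X.Loop a) {m s : Sy} (hm : m ∈ (X.dl a).w.x) (hs : s ∈ (X.dl a).w.x)
    (h1 : ((X.dl a).S m).card ≤ 1) : (X.dl a).R m s ↔ X.R m s :=
  Pool.Agent.TH745.J984.RW.R_of_single hG ha h hm hs h1

theorem aGood_rn {θ : Perm Sy} {X : RW} {π : Perm ℕ} (hθ : rnS π * θ = θ * rnS π)
    (hG : RW.Good θ X) : RW.Good θ (X.rn π) := Pool.Agent.TH745.J984.RW.Good_rn hθ hG

theorem aLoop_rn {X : RW} {π : Perm ℕ} (a : ℕ) : (X.rn π).Loop (π a) ↔ X.Loop a :=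
  Pool.Agent.TH745.J984.RW.Loop_rn a

theorem arn_theta {θ : Perm Sy} {E : RW} (hE : EnvR θ E) {π : Perm ℕ}
    (hπ : ∀ a ∈ RWS.nm E, π a = a) : rnS π * θ = θ * rnS π :=
  Pool.Agent.TH745.J984.EnvR.rn_theta hE hπ

variable {θ : Perm Sy} {X : RW} {m0 : Sy} {j b : ℕ}

theorem aenc_nm (hm : m0 ∈ X.w.x) (hb : b ∉ X.w.ord) :
    RWS.nm (enc m0 j b X) = insert b (RWS.nm X) := Pool.Agent.TH817.J985.enc_nm hm hb
theorem aenc_S_m0 (hm : m0 ∈ X.w.x) (hb : b ∉ X.w.ord) :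
    (enc m0 j b X).S m0 = X.S m0 \ {j} := Pool.Agent.TH817.J985.enc_S_m0 hm hb
theorem aenc_dl_self (hm : m0 ∈ X.w.x) (hb : b ∉ X.w.ord) (hj : j ∈ X.S m0) :
    (enc m0 j b X).dl b = X := Pool.Agent.TH817.J985.enc_dl_self hm hb hj
theorem aenc_dl (hm : m0 ∈ X.w.x) (hb : b ∉ X.w.ord) (hG : RW.Good θ X) (hj : j ∈ X.S m0)
    {a : ℕ} (hab : a ≠ b) (ham : offA a m0 = true) :
    (enc m0 j b X).dl a = enc m0 j b (X.dl a) := Pool.Agent.TH817.J985.enc_dl hm hb hG hj hab ham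
theorem aenc_rn (hm : m0 ∈ X.w.x) (hb : b ∉ X.w.ord) {π : Perm ℕ} (hπ : rnS π m0 = m0) :
    (enc m0 j b X).rn π = enc m0 j (π b) (X.rn π) := Pool.Agent.TH817.J985.enc_rn hm hb hπ
theorem aenc_Good (hm : m0 ∈ X.w.x) (hb : b ∉ X.w.ord) (hG : RW.Good θ X) (hj : j ∈ X.S m0)
    (hθ : ∀ s ∈ X.w.x, θ s ∈ X.w.x)
    (hf : θ (en b false) = en b true ∧ θ (en b true) = en b false) :
    RW.Good θ (enc m0 j b X) := Pool.Agent.TH817.J985.enc_Good hm hb hG hj hθ hf
theorem aenc_Loop_b (hm : m0 ∈ X.w.x) (hb : b ∉ X.w.ord) (hj : 2 ≤ (X.S m0).card) :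
    (enc m0 j b X).Loop b := Pool.Agent.TH817.J985.enc_Loop_b hm hb hj
theorem aenc_Loop (hm : m0 ∈ X.w.x) (hb : b ∉ X.w.ord) {a : ℕ} (ha : a ∈ X.w.ord)
    (h : X.Loop a) (hj : 2 ≤ (X.S m0).card) : (enc m0 j b X).Loop a :=
  Pool.Agent.TH817.J985.enc_Loop hm hb ha h hj

end iface

/-! ### basic facts -/

theorem mem_nm {X : RW} {a : ℕ} : a ∈ RWS.nm X ↔ a ∈ X.w.ord :=
  Sys.mem_nm (S := RWS) (X := X) (a := a)

theorem nm_dl' (X : RW) (a : ℕ) : RWS.nm (X.dl a) = (RWS.nm X).erase a := Sys.nm_dl (S := RWS) X a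

/-- symbols surviving a deletion -/
theorem mem_dl {X : RW} {a : ℕ} {s : Sy} : s ∈ (X.dl a).w.x ↔ s ∈ X.w.x ∧ offA a s = true := by
  show s ∈ X.w.x.filter (offA a) ↔ _
  rw [List.mem_filter]

theorem mem_foldl (l : List ℕ) (X : RW) (s : Sy) :
    s ∈ (l.foldl RW.dl X).w.x ↔ s ∈ X.w.x ∧ ∀ a ∈ l, offA a s = true := by
  induction l generalizing X with
  | nil => simp
  | cons a l ih =>
    rw [List.foldl_cons, ih, mem_dl]
    simp only [List.mem_cons, forall_eq_or_imp]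
    tauto

/-- symbols of a restriction -/
theorem mem_res {N : Finset ℕ} {X Y : RW} (hY : RWS.res N X = Y) {s : Sy} :
    s ∈ Y.w.x ↔ s ∈ X.w.x ∧ kp N s = true := by
  have hY' : ((RWS.nm X \ N).sort (· ≤ ·)).foldl RW.dl X = Y := hY
  rw [← hY', mem_foldl]
  refine and_congr_right fun hs => ?_
  constructor
  · intro h
    rcases s with n | ⟨c, e⟩
    · simp
    · rw [kp_en, decide_eq_true_eq]
      by_contra hc
      have := h c (by
        rw [Finset.mem_sort, Finset.mem_sdiff]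
        exact ⟨mem_nm.2 ((PW.mem_ord' e).2 hs), hc⟩)
      rw [offA_en] at this
      exact this rfl
  · intro h a ha
    rcases s with n | ⟨c, e⟩
    · simp
    · rw [offA_en]
      rw [kp_en, decide_eq_true_eq] at h
      rintro rfl
      rw [Finset.mem_sort, Finset.mem_sdiff] at ha
      exact ha.2 h

section basic
variable {θ : Perm Sy} {E X : RW}

theorem OvR_mem (hX : OvR θ E X) {s : Sy} :
    s ∈ E.w.x ↔ s ∈ X.w.x ∧ kp (RWS.nm E) s = true := by
  exact mem_res hX.2.1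

theorem OvR_sub (hX : OvR θ E X) : RWS.nm E ⊆ RWS.nm X := by
  intro a ha
  rw [mem_nm] at ha ⊢
  rw [PW.mem_ord] at ha ⊢
  exact ((OvR_mem hX).1 ha).1

theorem OvR_x (hX : OvR θ E X) {s : Sy} (hs : s ∈ E.w.x) : s ∈ X.w.x := ((OvR_mem hX).1 hs).1

theorem flipR (hE : EnvR θ E) {a : ℕ} (ha : a ∉ RWS.nm E) :
    θ (en a false) = en a true ∧ θ (en a true) = en a false := by
  have h : a ∉ E.w.ord := fun h => ha (mem_nm.2 h)
  exact ⟨hE.flip a h false, hE.flip a h true⟩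

/-- free arcs do not contain symbols of the frozen word -/
theorem off_of {m : Sy} (hm : m ∈ E.w.x) {a : ℕ} (ha : a ∉ RWS.nm E) : offA a m = true := by
  rcases m with n | ⟨c, e⟩
  · simp
  · rw [offA_en]
    rintro rfl
    exact ha (mem_nm.2 ((PW.mem_ord' e).2 hm))

/-- basic closure properties of `OvR` -/
theorem OvR_dl (hE : EnvR θ E) (hX : OvR θ E X) {a : ℕ}
    (ha : a ∈ RWS.nm X \ RWS.nm E) : OvR θ E (X.dl a) := by
  rw [Finset.mem_sdiff] at ha
  have haX : a ∈ X.w.ord := mem_nm.1 ha.1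
  have hL : X.Loop a := hX.2.2 a (Finset.mem_sdiff.2 ha)
  refine ⟨aGood_dl hX.1 (flipR hE ha.2) haX, ?_, ?_⟩
  · have := Pool.Agent.TH286.J835.Sys.res_dl' (S := RWS) X ha.2
    exact this.trans hX.2.1
  · intro b hb
    rw [Finset.mem_sdiff, nm_dl', Finset.mem_erase] at hb
    exact (aLoop_dl hL (mem_nm.1 hb.1.2) hb.1.1 haX).2 (hX.2.2 b (Finset.mem_sdiff.2 ⟨hb.1.2, hb.2⟩))

theorem rn_E {π : Perm ℕ} (hπ : ∀ a ∈ RWS.nm E, π a = a) : RWS.rn π E = E := by
  have h := RWS.rn_congr π 1 E (fun a ha => hπ a (mem_nm.2 ha))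
  exact h.trans (RWS.rn_one E)

theorem OvR_inv (hE : EnvR θ E) : Sys.Inv (S := RWS) (RWS.nm E) (OvR θ E) := by
  intro π hπ X hX
  refine ⟨aGood_rn (arn_theta hE hπ) hX.1, ?_, ?_⟩
  · rw [Pool.Agent.TH286.J835.Sys.res_rn_fix hπ, hX.2.1]
    exact rn_E hπ
  · intro b hb
    have hb' : b = π (π⁻¹ b) := by simp
    rw [Finset.mem_sdiff] at hb
    have h1 : π⁻¹ b ∈ RWS.nm X := by
      have := hb.1
      rw [hb'] at this
      exact (Sys.mem_nm_rn π X _).1 this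
    have h2 : π⁻¹ b ∉ RWS.nm E := by
      intro h
      have h3 := hπ _ h
      rw [← hb'] at h3
      rw [← h3] at h
      exact hb.2 h
    have h4 := (aLoop_rn (X := X) (π := π) (π⁻¹ b)).2 (hX.2.2 _ (Finset.mem_sdiff.2 ⟨h1, h2⟩))
    rw [← hb'] at h4
    exact h4

theorem OvR_cvx (hE : EnvR θ E) : Sys.Cvx (S := RWS) (RWS.nm E) (OvR θ E) :=
  fun _ hX _ ha _ _ _ _ => OvR_dl hE hX ha

/-- induction from the frozen word upwards -/
theorem OvR_induct (hE : EnvR θ E) {p : RW → Prop} (h0 : p E)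
    (hs : ∀ X a, OvR θ E X → a ∈ RWS.nm X \ RWS.nm E → OvR θ E (X.dl a) → p (X.dl a) → p X) :
    ∀ X, OvR θ E X → p X := by
  intro X
  induction hn : (RWS.nm X \ RWS.nm E).card using Nat.strong_induction_on generalizing X with
  | _ n ih =>
    intro hX
    by_cases h : RWS.nm X \ RWS.nm E = ∅
    · have h1 : RWS.res (RWS.nm E) X = X :=
        Pool.Agent.TH286.J835.Sys.res_of_subset (Finset.sdiff_eq_empty_iff_subset.1 h)
      have h2 : X = E := h1.symm.trans hX.2.1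
      rw [h2]; exact h0
    · obtain ⟨a, ha⟩ := Finset.nonempty_iff_ne_empty.2 h
      have h1 := OvR_dl hE hX ha
      have h2 := Sys.deg_dl (S := RWS) (F := RWS.nm E) (X := X) ha
      have h3 : (RWS.nm (X.dl a) \ RWS.nm E).card < n := by
        have h2' : (RWS.nm (X.dl a) \ RWS.nm E).card + 1 = (RWS.nm X \ RWS.nm E).card := h2
        omega
      exact hs X a hX ha h1 (ih _ h3 _ rfl h1)

theorem OvR_rk (hE : EnvR θ E) (hX : OvR θ E X) :
    X.rk + (RWS.nm X \ RWS.nm E).card = E.rk := by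
  refine OvR_induct hE (p := fun X => X.rk + (RWS.nm X \ RWS.nm E).card = E.rk) ?_ ?_ X hX
  · simp
  · intro X a hX ha hX' ih
    have h1 := ark_dl_loop hX.1 (flipR hE (Finset.mem_sdiff.1 ha).2)
      (mem_nm.1 (Finset.mem_sdiff.1 ha).1) (hX.2.2 a ha)
    have h2 : (RWS.nm (X.dl a) \ RWS.nm E).card + 1 = (RWS.nm X \ RWS.nm E).card :=
      Sys.deg_dl (S := RWS) (F := RWS.nm E) (X := X) ha
    show X.rk + ((RWS.nm X \ RWS.nm E).card : ℤ) = E.rk
    have ih' : (X.dl a).rk + ((RWS.nm (X.dl a) \ RWS.nm E).card : ℤ) = E.rk := ih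
    rw [← ih', h1, ← h2]
    push_cast
    ring

theorem OvR_pres (hE : EnvR θ E) (hX : OvR θ E X) : ∀ s ∈ X.w.x, θ s ∈ X.w.x := by
  intro s hs
  by_cases h : s ∈ E.w.x
  · exact OvR_x hX (hE.pres s h)
  · rcases s with n | ⟨a, e⟩
    · exact absurd ((OvR_mem hX).2 ⟨hs, by simp⟩) h
    · have ha : a ∉ E.w.ord := fun h' => h ((PW.mem_ord' e).1 h')
      rw [hE.flip a ha e]
      exact (PW.mem_ord' _).1 ((PW.mem_ord' e).2 hs)

theorem OvR_env (hE : EnvR θ E) (hX : OvR θ E X) : EnvR θ X where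
  flip := by
    intro a ha e
    exact hE.flip a (fun h => ha (mem_nm.1 (OvR_sub hX (mem_nm.2 h)))) e
  pres := OvR_pres hE hX
  fixm := by
    intro n hn
    exact hE.fixm n (fun h => hn (OvR_x hX h))
  good := hX.1

end basic

/-! ### the region of a symbol of the frozen word -/
section single
variable {θ : Perm Sy} {E X : RW} {m0 : Sy}

theorem mem_dl_of (hX : OvR θ E X) (hm : m0 ∈ E.w.x) {a : ℕ} (ha : a ∉ RWS.nm E) :
    m0 ∈ (X.dl a).w.x := mem_dl.2 ⟨OvR_x hX hm, off_of hm ha⟩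

theorem S_mono (hX : OvR θ E X) (hm : m0 ∈ E.w.x) {a : ℕ} (ha : a ∉ RWS.nm E) :
    X.S m0 ⊆ (X.dl a).S m0 := aS_sub (mem_dl_of hX hm ha)

theorem S_subE (hE : EnvR θ E) (hX : OvR θ E X) (hm : m0 ∈ E.w.x) : X.S m0 ⊆ E.S m0 := by
  refine OvR_induct hE (p := fun X => X.S m0 ⊆ E.S m0) subset_rfl ?_ X hX
  intro X a hX ha _ ih
  exact (S_mono hX hm (Finset.mem_sdiff.1 ha).2).trans ih

theorem S_neE (hE : EnvR θ E) (hX : OvR θ E X) (hm : m0 ∈ E.w.x) (hne : (E.S m0).Nonempty) :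
    (X.S m0).Nonempty := by
  refine OvR_induct hE (p := fun X => (X.S m0).Nonempty) hne ?_ X hX
  intro X a hX ha _ ih
  exact aS_ne (hX.2.2 a ha) (mem_dl_of hX hm (Finset.mem_sdiff.1 ha).2) ih

theorem Loop_up (hE : EnvR θ E) (hX : OvR θ E X) {a : ℕ} (ha : a ∈ RWS.nm E) (h : E.Loop a) :
    X.Loop a := by
  refine OvR_induct hE (p := fun X => X.Loop a) h ?_ X hX
  intro X c hX hc _ ih
  have hc' := Finset.mem_sdiff.1 hc
  have hne : a ≠ c := by rintro rfl; exact hc'.2 ha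
  exact (aLoop_dl (hX.2.2 c hc) (mem_nm.1 (OvR_sub hX ha)) hne (mem_nm.1 hc'.1)).1 ih

theorem R_up (hE : EnvR θ E) (hX : OvR θ E X) (hm : m0 ∈ E.w.x) (h1 : (E.S m0).card ≤ 1)
    {s : Sy} (hs : s ∈ E.w.x) : X.R m0 s ↔ E.R m0 s := by
  refine OvR_induct hE (p := fun X => X.R m0 s ↔ E.R m0 s) Iff.rfl ?_ X hX
  intro X a hX ha hX' ih
  have ha' := Finset.mem_sdiff.1 ha
  rw [← ih]
  exact (aR_of_single hX.1 (mem_nm.1 ha'.1) (hX.2.2 a ha) (mem_dl_of hX hm ha'.2)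
    (mem_dl_of hX hs ha'.2) (le_trans (Finset.card_le_card (S_subE hE hX' hm)) h1)).symm

theorem df_up (hE : EnvR θ E) (hX : OvR θ E X) (hm : m0 ∈ E.w.x) :
    X.df ≤ E.df ∧ (X.S m0 ≠ E.S m0 → X.df < E.df) := by
  refine OvR_induct hE (p := fun X => X.df ≤ E.df ∧ (X.S m0 ≠ E.S m0 → X.df < E.df))
    ⟨le_rfl, fun h => absurd rfl h⟩ ?_ X hX
  intro X a hX ha hX' ih
  have ha' := Finset.mem_sdiff.1 ha
  have hf := flipR hE ha'.2
  have hd := adf_dl_loop hX.1 hf (mem_nm.1 ha'.1) (hX.2.2 a ha)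
  refine ⟨by omega, fun hne => ?_⟩
  by_cases h : (X.dl a).S m0 = E.S m0
  · have := adf_dl_ne hX.1 hf (mem_nm.1 ha'.1) (hX.2.2 a ha) (mem_dl_of hX hm ha'.2)
      (by rw [h]; exact hne.symm)
    omega
  · have := ih.2 h
    omega

theorem rnS_fix (hm : m0 ∈ E.w.x) {π : Perm ℕ} (hπ : ∀ a ∈ RWS.nm E, π a = a) :
    rnS π m0 = m0 := by
  rcases m0 with n | ⟨c, e⟩
  · rfl
  · rw [rnS_en, hπ c (mem_nm.2 ((PW.mem_ord' e).2 hm))]

theorem S_rn (hm : m0 ∈ E.w.x) {π : Perm ℕ} (hπ : ∀ a ∈ RWS.nm E, π a = a) (X : RW) :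
    (X.rn π).S m0 = X.S m0 := by
  show X.S ((rnS π).symm m0) = X.S m0
  rw [(Equiv.symm_apply_eq _).2 (rnS_fix hm hπ).symm]

end single

/-! ### the predicates of the proof -/
section preds
variable {θ : Perm Sy} {E : RW} {m0 : Sy}

/-- cells without punctures from `T` in the region of `m0` -/
def NT (θ : Perm Sy) (E : RW) (m0 : Sy) (T : Finset ℕ) (X : RWS.C) : Prop :=
  OvR θ E X ∧ Disjoint (RW.S X m0) T

/-- cells with the puncture `j` and at least one more in the region of `m0` -/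
def P1 (θ : Perm Sy) (E : RW) (m0 : Sy) (T : Finset ℕ) (j : ℕ) (X : RWS.C) : Prop :=
  NT θ E m0 T X ∧ (j ∈ RW.S X m0 ∧ 2 ≤ (RW.S X m0).card)

/-- the other cells -/
def P2 (θ : Perm Sy) (E : RW) (m0 : Sy) (T : Finset ℕ) (j : ℕ) (X : RWS.C) : Prop :=
  NT θ E m0 T X ∧ ¬ (j ∈ RW.S X m0 ∧ 2 ≤ (RW.S X m0).card)

/-- cells with exactly the puncture `j` in the region of `m0` -/
def P3 (θ : Perm Sy) (E : RW) (m0 : Sy) (j : ℕ) (X : RWS.C) : Prop :=
  OvR θ E X ∧ RW.S X m0 = {j}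

theorem inv_of (hE : EnvR θ E) (hm : m0 ∈ E.w.x) (q : Finset ℕ → Prop) :
    Sys.Inv (S := RWS) (RWS.nm E) (fun X => OvR θ E X ∧ q (RW.S X m0)) := by
  intro π hπ X hX
  refine ⟨OvR_inv hE π hπ X hX.1, ?_⟩
  have h : RW.S (RWS.rn π X) m0 = RW.S X m0 := S_rn hm hπ X
  rw [h]
  exact hX.2

theorem cvx_of (hE : EnvR θ E) (hm : m0 ∈ E.w.x) (q : Finset ℕ → Prop)
    (hq : ∀ A B C : Finset ℕ, A ⊆ B → B ⊆ C → q A → q C → q B) :
    Sys.Cvx (S := RWS) (RWS.nm E) (fun X => OvR θ E X ∧ q (RW.S X m0)) := by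
  intro X hX a ha b hb hab h
  have h1 : OvR θ E (RW.dl X a) := OvR_dl hE hX.1 ha
  refine ⟨h1, hq _ _ _ (S_mono hX.1 hm (Finset.mem_sdiff.1 ha).2)
    (S_mono h1 hm (Finset.mem_sdiff.1 hb).2) hX.2 h.2⟩

theorem NT_inv (hE : EnvR θ E) (hm : m0 ∈ E.w.x) (T : Finset ℕ) :
    Sys.Inv (S := RWS) (RWS.nm E) (NT θ E m0 T) := inv_of hE hm (fun A => Disjoint A T)

theorem NT_cvx (hE : EnvR θ E) (hm : m0 ∈ E.w.x) (T : Finset ℕ) :
    Sys.Cvx (S := RWS) (RWS.nm E) (NT θ E m0 T) :=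
  cvx_of hE hm (fun A => Disjoint A T) (fun _ _ _ _ h2 _ h4 => Finset.disjoint_of_subset_left h2 h4)

theorem P1_inv (hE : EnvR θ E) (hm : m0 ∈ E.w.x) (T : Finset ℕ) (j : ℕ) :
    Sys.Inv (S := RWS) (RWS.nm E) (P1 θ E m0 T j) := by
  intro π hπ X hX
  have := inv_of hE hm (fun A => Disjoint A T ∧ (j ∈ A ∧ 2 ≤ A.card)) π hπ X
    ⟨hX.1.1, hX.1.2, hX.2⟩
  exact ⟨⟨this.1, this.2.1⟩, this.2.2⟩

theorem P2_inv (hE : EnvR θ E) (hm : m0 ∈ E.w.x) (T : Finset ℕ) (j : ℕ) :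
    Sys.Inv (S := RWS) (RWS.nm E) (P2 θ E m0 T j) := by
  intro π hπ X hX
  have := inv_of hE hm (fun A => Disjoint A T ∧ ¬ (j ∈ A ∧ 2 ≤ A.card)) π hπ X
    ⟨hX.1.1, hX.1.2, hX.2⟩
  exact ⟨⟨this.1, this.2.1⟩, this.2.2⟩

theorem P2_cvx (hE : EnvR θ E) (hm : m0 ∈ E.w.x) (T : Finset ℕ) (j : ℕ) :
    Sys.Cvx (S := RWS) (RWS.nm E) (P2 θ E m0 T j) := by
  intro X hX a ha b hb hab h
  have := cvx_of hE hm (fun A => Disjoint A T ∧ ¬ (j ∈ A ∧ 2 ≤ A.card)) (by
    intro A B C _ h2 _ h4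
    refine ⟨Finset.disjoint_of_subset_left h2 h4.1, fun h5 => h4.2 ⟨h2 h5.1, ?_⟩⟩
    exact h5.2.trans (Finset.card_le_card h2)) X ⟨hX.1.1, hX.1.2, hX.2⟩ a ha b hb hab
      ⟨h.1.1, h.1.2, h.2⟩
  exact ⟨⟨this.1, this.2.1⟩, this.2.2⟩

theorem P3_inv (hE : EnvR θ E) (hm : m0 ∈ E.w.x) (j : ℕ) :
    Sys.Inv (S := RWS) (RWS.nm E) (P3 θ E m0 j) := inv_of hE hm (fun A => A = {j})

theorem P3_cvx (hE : EnvR θ E) (hm : m0 ∈ E.w.x) (j : ℕ) :
    Sys.Cvx (S := RWS) (RWS.nm E) (P3 θ E m0 j) :=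
  cvx_of hE hm (fun A => A = {j}) (fun A B C h1 h2 h3 h4 => by
    subst h3 h4
    exact Finset.Subset.antisymm h2 h1)

theorem sub_P1 (hm : m0 ∈ E.w.x) (T : Finset ℕ) (j : ℕ) :
    ∀ X, P1 θ E m0 T j X → ∀ a ∈ RWS.nm X \ RWS.nm E, NT θ E m0 T (RWS.dl X a) →
      P1 θ E m0 T j (RWS.dl X a) := by
  intro X hX a ha h
  have h1 : RW.S X m0 ⊆ RW.S (RWS.dl X a) m0 := S_mono hX.1.1 hm (Finset.mem_sdiff.1 ha).2
  exact ⟨h, h1 hX.2.1, hX.2.2.trans (Finset.card_le_card h1)⟩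

/-- the homotopy given by enclosing the puncture `j` -/
theorem NH_P1 (hE : EnvR θ E) (hm : m0 ∈ E.w.x) {T : Finset ℕ} {j : ℕ} (hjT : j ∉ T) (i : ℕ) :
    Sys.NH (S := RWS) (RWS.nm E) (NT θ E m0 T) (P1 θ E m0 T j) i := by
  have key : ∀ (X : RW) (b : ℕ), P1 θ E m0 T j X → b ∉ RWS.nm X → b ∉ RWS.nm E →
      ∀ a ∈ RWS.nm X \ RWS.nm E, (enc m0 j b X).dl a = enc m0 j b (X.dl a) := by
    intro X b hX hb hbE a ha
    have ha' := Finset.mem_sdiff.1 ha
    have hab : a ≠ b := by rintro rfl; exact hb ha'.1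
    exact aenc_dl (OvR_x hX.1.1 hm) (fun h => hb (mem_nm.2 h)) hX.1.1.1 hX.2.1 hab
      (off_of hm ha'.2)
  refine Pool.Agent.TH304.J770.NH_of_ins (NT_inv hE hm T) (P1_inv hE hm T j) (fun X h => h.1)
    (sub_P1 hm T j) (fun b X => enc m0 j b X) ?_ ?_ ?_ ?_ ?_ ?_ i
  · intro X b hX hb hbE
    exact aenc_nm (OvR_x hX.1.1 hm) (fun h => hb (mem_nm.2 h))
  · intro X b hX hb hbE
    exact aenc_dl_self (OvR_x hX.1.1 hm) (fun h => hb (mem_nm.2 h)) hX.2.1
  · intro X b hX hb hbE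
    have hmX : m0 ∈ (RW.w X).x := OvR_x hX.1.1 hm
    have hbX : b ∉ (RW.w X).ord := fun h => hb (mem_nm.2 h)
    refine ⟨⟨aenc_Good hmX hbX hX.1.1.1 hX.2.1 (OvR_pres hE hX.1.1) (flipR hE hbE), ?_, ?_⟩, ?_⟩
    · have h1 := Pool.Agent.TH286.J835.Sys.res_dl' (S := RWS) (enc m0 j b X) hbE
      have h2 : RWS.dl (enc m0 j b X) b = X := aenc_dl_self hmX hbX hX.2.1
      rw [h2] at h1
      exact h1.symm.trans hX.1.1.2.1
    · intro a ha
      rw [aenc_nm hmX hbX, Finset.mem_sdiff, Finset.mem_insert] at ha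
      rcases ha.1 with rfl | h
      · exact aenc_Loop_b hmX hbX hX.2.2
      · exact aenc_Loop hmX hbX (mem_nm.1 h) (hX.1.1.2.2 a (Finset.mem_sdiff.2 ⟨h, ha.2⟩)) hX.2.2
    · show Disjoint ((enc m0 j b X).S m0) T
      rw [aenc_S_m0 hmX hbX]
      exact Finset.disjoint_of_subset_left Finset.sdiff_subset hX.1.2
  · intro X b hX hb hbE a ha _
    exact key X b hX hb hbE a ha
  · intro X b hX hb hbE a ha h
    have h1 : RWS.dl (enc m0 j b X) a = enc m0 j b (RWS.dl X a) := key X b hX hb hbE a ha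
    have ha' := Finset.mem_sdiff.1 ha
    refine ⟨OvR_dl hE hX.1.1 ha, ?_⟩
    have h2 := h.2
    rw [h1] at h2
    have hbX : b ∉ (RW.w (RWS.dl X a)).ord := by
      intro h3
      have h4 : b ∈ RWS.nm (RWS.dl X a) := mem_nm.2 h3
      rw [Sys.nm_dl] at h4
      exact hb (Finset.mem_of_mem_erase h4)
    have h3 : (enc m0 j b (RWS.dl X a)).S m0 = RW.S (RWS.dl X a) m0 \ {j} :=
      aenc_S_m0 (mem_dl_of hX.1.1 hm ha'.2) hbX
    rw [h3] at h2
    rw [Finset.disjoint_left] at h2 ⊢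
    intro k hk hkT
    refine h2 ?_ hkT
    rw [Finset.mem_sdiff, Finset.mem_singleton]
    exact ⟨hk, fun h => hjT (h ▸ hkT)⟩
  · intro X b hX hb hbE π hπ
    exact aenc_rn (OvR_x hX.1.1 hm) (fun h => hb (mem_nm.2 h)) (rnS_fix hm hπ)

end preds

/-! ### freezing the arcs at the region of `m0` -/
section pattern
variable {θ : Perm Sy} {E : RW} {m0 : Sy} {j : ℕ}

open Classical in
/-- the free arcs with exactly one side in the region of `m0` -/
noncomputable def U (E : RW) (m0 : Sy) (X : RW) : Finset ℕ :=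
  (RWS.nm X \ RWS.nm E).filter (fun a => ¬ (X.R m0 (en a false) ↔ X.R m0 (en a true)))

theorem mem_U {X : RW} {a : ℕ} :
    a ∈ U E m0 X ↔ a ∈ RWS.nm X \ RWS.nm E ∧ ¬ (X.R m0 (en a false) ↔ X.R m0 (en a true)) := by
  classical
  unfold U
  rw [Finset.mem_filter]

/-- the cell formed by the frozen arcs and the arcs of `U` -/
noncomputable def pt (E : RW) (m0 : Sy) (X : RW) : RW := RWS.res (RWS.nm E ∪ U E m0 X) X

theorem M_m0 {X : RW} {a : ℕ} (h : X.M a m0) : X.R m0 (en a false) ∨ X.R m0 (en a true) := h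

/-- a deleted arc of `U` joins the region of `m0` with another punctured region -/
theorem two_of_U {X : RW} (hX : OvR θ E X) (hm : m0 ∈ E.w.x) {a : ℕ}
    (ha : a ∈ RWS.nm X \ RWS.nm E)
    (hU : ¬ (X.R m0 (en a false) ↔ X.R m0 (en a true))) : 2 ≤ ((X.dl a).S m0).card := by
  have ha' := Finset.mem_sdiff.1 ha
  have hm' := mem_dl_of hX hm ha'.2
  have h0 : en a false ∈ X.w.x := (PW.mem_ord' false).1 (mem_nm.1 ha'.1)
  have h1 : en a true ∈ X.w.x := (PW.mem_ord' true).1 (mem_nm.1 ha'.1)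
  have hM : X.M a m0 := by
    unfold RW.M
    tauto
  have hR : ¬ X.R (en a false) (en a true) := by
    intro h
    apply hU
    exact ⟨fun h' => X.trans' _ _ _ h' h, fun h' => X.trans' _ _ _ h' (X.symm' _ _ h)⟩
  have hL := (hX.2.2 a ha).resolve_left hR
  have hS : (X.dl a).S m0 = X.S (en a false) ∪ X.S (en a true) := by
    classical
    show (if m0 ∈ (X.w.dl a).x then (if X.M a m0 then _ else _) else _) = _
    have hm'' : m0 ∈ (X.w.dl a).x := hm'
    rw [if_pos hm'', if_pos hM]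
  have hd : Disjoint (X.S (en a false)) (X.S (en a true)) := by
    rw [Finset.disjoint_iff_inter_eq_empty]
    by_contra hcon
    exact hR (hX.1.2.2.1 _ h0 _ h1 (Finset.nonempty_iff_ne_empty.2 hcon))
  rw [hS, Finset.card_union_of_disjoint hd]
  have := Finset.card_pos.2 hL.1
  have := Finset.card_pos.2 hL.2
  omega

theorem P3_not_U {X : RW} (hX : P3 θ E m0 j X) (hm : m0 ∈ E.w.x) {a : ℕ}
    (ha : a ∈ RWS.nm X \ RWS.nm E) (h : P3 θ E m0 j (X.dl a)) : a ∉ U E m0 X := by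
  intro hU
  have h1 := two_of_U hX.1 hm ha (mem_U.1 hU).2
  rw [show (X.dl a).S m0 = {j} from h.2] at h1
  simp at h1

theorem U_dl {X : RW} (hX : P3 θ E m0 j X) (hm : m0 ∈ E.w.x) {a : ℕ}
    (ha : a ∈ RWS.nm X \ RWS.nm E) (h : P3 θ E m0 j (X.dl a)) :
    U E m0 (X.dl a) = U E m0 X := by
  have hn := P3_not_U hX hm ha h
  have ha' := Finset.mem_sdiff.1 ha
  have hm' := mem_dl_of hX.1 hm ha'.2
  have hc : ((X.dl a).S m0).card ≤ 1 := by rw [show (X.dl a).S m0 = {j} from h.2]; simp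
  ext b
  rw [mem_U, mem_U, nm_dl']
  by_cases hba : b = a
  · subst hba
    rw [mem_U] at hn
    simp only [Finset.mem_sdiff, Finset.mem_erase, ne_eq, not_true_eq_false, false_and]
    rw [Finset.mem_sdiff] at hn
    tauto
  · simp only [Finset.mem_sdiff, Finset.mem_erase, ne_eq, hba, not_false_eq_true, true_and]
    refine and_congr_right fun hb => ?_
    have hR : ∀ e, (X.dl a).R m0 (en b e) ↔ X.R m0 (en b e) := by
      intro e
      refine aR_of_single hX.1.1 (mem_nm.1 ha'.1) (hX.1.2.2 a ha) hm' ?_ hc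
      rw [mem_dl, offA_en]
      exact ⟨(PW.mem_ord' e).1 (mem_nm.1 hb.1), hba⟩
    rw [hR, hR]

/-- deleting an arc which is not in `U` does not leave `P3` -/
theorem P3_dl (hE : EnvR θ E) {X : RW} (hX : P3 θ E m0 j X) (hm : m0 ∈ E.w.x) {a : ℕ}
    (ha : a ∈ RWS.nm X \ RWS.nm E) (h : a ∉ U E m0 X) : P3 θ E m0 j (X.dl a) := by
  have ha' := Finset.mem_sdiff.1 ha
  have hm' := mem_dl_of hX.1 hm ha'.2
  refine ⟨OvR_dl hE hX.1 ha, ?_⟩
  have hXS : X.S m0 = {j} := hX.2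
  rw [mem_U] at h
  have h2 : X.R m0 (en a false) ↔ X.R m0 (en a true) := by tauto
  classical
  show (if m0 ∈ (X.w.dl a).x then (if X.M a m0 then X.S (en a false) ∪ X.S (en a true)
    else X.S m0) else _) = _
  have hm'' : m0 ∈ (X.w.dl a).x := hm'
  rw [if_pos hm'']
  by_cases hM : X.M a m0
  · rw [if_pos hM]
    have h3 : X.R m0 (en a false) := by
      rcases M_m0 hM with h | h
      · exact h
      · exact h2.2 h
    rw [← X.S_eq _ _ h3, ← X.S_eq _ _ (h2.1 h3), hXS, Finset.union_self]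
  · rw [if_neg hM, hXS]

theorem pt_facts (hE : EnvR θ E) (hm : m0 ∈ E.w.x) {X : RW} (hX : P3 θ E m0 j X) :
    P3 θ E m0 j (pt E m0 X) ∧ U E m0 (pt E m0 X) = U E m0 X ∧
      RWS.nm (pt E m0 X) = RWS.nm E ∪ U E m0 X := by
  have h := Pool.Agent.TH286.J835.Sys.res_ind (S := RWS) (N := RWS.nm E ∪ U E m0 X)
    (p := fun Z => P3 θ E m0 j Z ∧ U E m0 Z = U E m0 X) (X := X) ⟨hX, rfl⟩ (by
      rintro Z ⟨hZ, hU⟩ a ha
      rw [Finset.mem_sdiff, Finset.mem_union, not_or] at ha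
      have ha' : a ∈ RWS.nm Z \ RWS.nm E := Finset.mem_sdiff.2 ⟨ha.1, ha.2.1⟩
      have haU : a ∉ U E m0 Z := by rw [hU]; exact ha.2.2
      have h1 : P3 θ E m0 j (RWS.dl Z a) := P3_dl hE hZ hm ha' haU
      have h2 : U E m0 (RWS.dl Z a) = U E m0 Z := U_dl hZ hm ha' h1
      exact ⟨h1, h2.trans hU⟩)
  refine ⟨h.1, h.2, ?_⟩
  have h3 := Pool.Agent.TH286.J835.Sys.nm_res (S := RWS) (RWS.nm E ∪ U E m0 X) X
  have h4 : RWS.nm (pt E m0 X) = RWS.nm X ∩ (RWS.nm E ∪ U E m0 X) := h3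
  rw [h4]
  apply Finset.inter_eq_right.2
  refine Finset.union_subset (OvR_sub hX.1) ?_
  intro a ha
  exact (Finset.mem_sdiff.1 (mem_U.1 ha).1).1

theorem U_eq_sdiff (hE : EnvR θ E) (hm : m0 ∈ E.w.x) {X : RW} (hX : P3 θ E m0 j X) :
    RWS.nm (pt E m0 X) \ RWS.nm E = U E m0 X := by
  rw [(pt_facts hE hm hX).2.2]
  ext a
  rw [Finset.mem_sdiff, Finset.mem_union]
  constructor
  · rintro ⟨h1 | h1, h2⟩
    · exact absurd h1 h2
    · exact h1
  · intro h
    exact ⟨Or.inr h, (Finset.mem_sdiff.1 (mem_U.1 h).1).2⟩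

theorem OvR_sub_res (hE : EnvR θ E) (hm : m0 ∈ E.w.x) {X : RW} (hX : P3 θ E m0 j X) :
    RWS.nm (pt E m0 X) ⊆ RWS.nm X := by
  rw [(pt_facts hE hm hX).2.2]
  refine Finset.union_subset (OvR_sub hX.1) ?_
  intro a ha
  exact (Finset.mem_sdiff.1 (mem_U.1 ha).1).1

theorem pt_rn (hE : EnvR θ E) (hm : m0 ∈ E.w.x) {X : RW} (hX : P3 θ E m0 j X) {π : Perm ℕ}
    (hπ : ∀ a ∈ RWS.nm E, π a = a) : pt E m0 (X.rn π) = (pt E m0 X).rn π := by
  have h1 : RWS.nm E ∪ U E m0 (X.rn π) = (RWS.nm E ∪ U E m0 X).map π.toEmbedding := by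
    have hmap : (RWS.nm E).map π.toEmbedding = RWS.nm E := by
      ext b
      rw [Finset.mem_map]
      constructor
      · rintro ⟨a, ha, rfl⟩
        rw [Equiv.coe_toEmbedding, hπ a ha]
        exact ha
      · intro hb
        exact ⟨b, hb, hπ b hb⟩
    rw [Finset.map_union, hmap]
    congr 1
    ext b
    rw [mem_U, Finset.mem_map]
    have hRb : ∀ a e, (X.rn π).R m0 (en (π a) e) ↔ X.R m0 (en a e) := by
      intro a e
      show X.R ((rnS π).symm m0) ((rnS π).symm (en (π a) e)) ↔ _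
      rw [(Equiv.symm_apply_eq _).2 (rnS_fix hm hπ).symm,
        (Equiv.symm_apply_eq _).2 (show en (π a) e = rnS π (en a e) from rfl)]
    have hnb : RWS.nm (X.rn π) \ RWS.nm E = (RWS.nm X \ RWS.nm E).map π.toEmbedding := by
      have h3 : RWS.nm (X.rn π) = (RWS.nm X).map π.toEmbedding := Sys.nm_rn (S := RWS) π X
      rw [h3]
      exact Sys.map_sdiff_fix hπ _
    rw [hnb, Finset.mem_map]
    constructor
    · rintro ⟨⟨a, ha, rfl⟩, h⟩
      rw [Equiv.coe_toEmbedding, hRb, hRb] at h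
      exact ⟨a, mem_U.2 ⟨ha, h⟩, rfl⟩
    · rintro ⟨a, ha, rfl⟩
      rw [mem_U] at ha
      refine ⟨⟨a, ha.1, rfl⟩, ?_⟩
      rw [Equiv.coe_toEmbedding, hRb, hRb]
      exact ha.2
  have h2 := Pool.Agent.TH286.J835.Sys.res_rn (S := RWS) (RWS.nm E ∪ U E m0 X) π X
  rw [← h1] at h2
  exact h2

/-- the cells of `P3` with the same pattern `Y` -/
theorem P3_pt_iff (hE : EnvR θ E) (hm : m0 ∈ E.w.x) {X0 : RW} (hX0 : P3 θ E m0 j X0) (X : RW) :
    (P3 θ E m0 j X ∧ pt E m0 X = pt E m0 X0) ↔ OvR θ (pt E m0 X0) X := by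
  obtain ⟨hY, hUY, hnY⟩ := pt_facts hE hm hX0
  have hEY := OvR_env hE hY.1
  have hsd := U_eq_sdiff hE hm hX0
  set Y := pt E m0 X0 with hYdef
  have hmY : m0 ∈ Y.w.x := OvR_x hY.1 hm
  have hYS : Y.S m0 = {j} := hY.2
  have hEsubY : RWS.nm E ⊆ RWS.nm Y := OvR_sub hY.1
  constructor
  · rintro ⟨hX, hp⟩
    refine ⟨hX.1.1, ?_, ?_⟩
    · have h1 := (pt_facts hE hm hX).2.2
      rw [hp] at h1
      rw [h1]
      exact hp
    · intro a ha
      rw [Finset.mem_sdiff] at ha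
      exact hX.1.2.2 a (Finset.mem_sdiff.2 ⟨ha.1, fun h => ha.2 (hEsubY h)⟩)
  · intro hX
    have hXE : OvR θ E X := by
      refine ⟨hX.1, ?_, ?_⟩
      · have h1 := Pool.Agent.TH286.J835.Sys.res_res (S := RWS) (RWS.nm E) (RWS.nm Y) X
        have h2 : RWS.res (RWS.nm Y) X = Y := hX.2.1
        rw [h2, Finset.inter_eq_left.2 hEsubY] at h1
        exact h1.symm.trans hY.1.2.1
      · intro a ha
        rw [Finset.mem_sdiff] at ha
        by_cases haY : a ∈ RWS.nm Y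
        · exact Loop_up hEY hX haY (hY.1.2.2 a (Finset.mem_sdiff.2 ⟨haY, ha.2⟩))
        · exact hX.2.2 a (Finset.mem_sdiff.2 ⟨ha.1, haY⟩)
    have hXS : X.S m0 = {j} := by
      have h1 := S_subE hEY hX hmY
      have h2 := S_neE hEY hX hmY (by rw [hYS]; simp)
      rw [hYS] at h1
      exact (Finset.subset_singleton_iff.1 h1).resolve_left (Finset.nonempty_iff_ne_empty.1 h2)
    have hP : P3 θ E m0 j X := ⟨hXE, hXS⟩
    refine ⟨hP, ?_⟩
    have hU : U E m0 X = U E m0 Y := by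
      ext a
      rw [mem_U, mem_U]
      by_cases haY : a ∈ RWS.nm Y
      · have haX : a ∈ RWS.nm X := OvR_sub hX haY
        have hR : ∀ e, X.R m0 (en a e) ↔ Y.R m0 (en a e) := by
          intro e
          exact R_up hEY hX hmY (by rw [hYS]; simp) ((PW.mem_ord' e).1 (mem_nm.1 haY))
        rw [hR, hR]
        simp only [Finset.mem_sdiff, haX, haY, true_and]
      · have h1 : ¬ (a ∈ RWS.nm Y \ RWS.nm E) := fun h => haY (Finset.mem_sdiff.1 h).1
        constructor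
        · rintro ⟨h2, h3⟩
          exfalso
          have h4 : a ∈ RWS.nm X \ RWS.nm Y := Finset.mem_sdiff.2 ⟨(Finset.mem_sdiff.1 h2).1, haY⟩
          have h5 := two_of_U hX hmY h4 h3
          have h6 := S_subE hEY (OvR_dl hEY hX h4) hmY
          have h7 := Finset.card_le_card h6
          rw [hYS, Finset.card_singleton] at h7
          omega
        · rintro ⟨h2, _⟩
          exact absurd h2 h1
    have h1 : pt E m0 X = RWS.res (RWS.nm E ∪ U E m0 X) X := rfl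
    rw [h1, hU, hUY, ← hnY]
    exact hX.2.1

end pattern

/-! ### the main induction -/
section main
variable {θ : Perm Sy}

theorem Ex_congr {F : Finset ℕ} {P R : RWS.C → Prop} (h : ∀ X, P X ↔ R X) {i : ℕ}
    (hR : Sys.Ex (S := RWS) F R i) : Sys.Ex (S := RWS) F P i := by
  have : P = R := funext fun X => propext (h X)
  rw [this]; exact hR

theorem Ex_P3 {E : RW} {m0 : Sy} {j : ℕ} (hE : EnvR θ E) (hm : m0 ∈ E.w.x)
    (h2 : 2 ≤ (E.S m0).card)
    (hrec : ∀ Y : RW, EnvR θ Y → Y.df < E.df → ∀ i : ℕ, (i : ℤ) < Y.rk →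
      Sys.Ex (S := RWS) (RWS.nm Y) (OvR θ Y) i) (i : ℕ) (hi : (i : ℤ) < E.rk) :
    Sys.Ex (S := RWS) (RWS.nm E) (P3 θ E m0 j) i := by
  refine Pool.Agent.TH304.J771.Ex_of_pattern (P3_inv hE hm j) (P3_cvx hE hm j) (pt E m0)
    ?_ ?_ ?_ ?_ ?_
  · intro X hX
    rw [(pt_facts hE hm hX).2.2]
    exact Finset.subset_union_left
  · intro X hX
    exact OvR_sub_res hE hm hX
  · intro X hX π hπ
    exact pt_rn hE hm hX hπ
  · intro X hX a ha h
    left
    have hU := P3_not_U hX hm ha h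
    have hUd := U_dl hX hm ha h
    have hN : a ∉ RWS.nm E ∪ U E m0 X := by
      rw [Finset.mem_union, not_or]
      exact ⟨(Finset.mem_sdiff.1 ha).2, hU⟩
    refine ⟨?_, ?_⟩
    · rw [(pt_facts hE hm hX).2.2]; exact hN
    · have h1 : pt E m0 (RW.dl X a) = RWS.res (RWS.nm E ∪ U E m0 (RW.dl X a)) (RWS.dl X a) := rfl
      rw [hUd] at h1
      exact h1.trans (Pool.Agent.TH286.J835.Sys.res_dl' (S := RWS) X hN)
  · rintro Y j' hj' hFY ⟨X0, hX0, rfl⟩
    obtain ⟨hY, hUY, hnY⟩ := pt_facts hE hm hX0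
    refine Ex_congr (P3_pt_iff hE hm hX0) ?_
    refine hrec _ (OvR_env hE hY.1) ?_ j' ?_
    · refine (df_up hE hY.1 hm).2 ?_
      intro h
      rw [← h, show RW.S (pt E m0 X0) m0 = {j} from hY.2] at h2
      simp at h2
    · have h3 := OvR_rk hE hY.1
      have h4 : (j' : ℤ) + ((RWS.nm (pt E m0 X0) \ RWS.nm E).card : ℤ) = i := by
        exact_mod_cast hj'
      linarith

theorem Ex_NT {E : RW} {m0 : Sy} (hE : EnvR θ E) (hm : m0 ∈ E.w.x)
    (h2 : 2 ≤ (E.S m0).card)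
    (hrec : ∀ Y : RW, EnvR θ Y → Y.df < E.df → ∀ i : ℕ, (i : ℤ) < Y.rk →
      Sys.Ex (S := RWS) (RWS.nm Y) (OvR θ Y) i) (i : ℕ) (hi : (i : ℤ) < E.rk) :
    ∀ T : Finset ℕ, T ⊆ E.S m0 → Sys.Ex (S := RWS) (RWS.nm E) (NT θ E m0 T) i := by
  intro T
  induction hn : (E.S m0 \ T).card using Nat.strong_induction_on generalizing T with
  | _ n ih =>
    intro hT
    have hne : (E.S m0).Nonempty := Finset.card_pos.1 (by omega)
    by_cases h : E.S m0 \ T = ∅
    · -- no cells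
      have hT' : T = E.S m0 := Finset.Subset.antisymm hT (Finset.sdiff_eq_empty_iff_subset.1 h)
      have hno : ∀ X : RWS.C, ¬ NT θ E m0 T X := by
        intro X hX
        have h1 := S_subE hE hX.1 hm
        obtain ⟨k, hk⟩ := S_neE hE hX.1 hm hne
        exact (Finset.disjoint_left.1 hX.2 hk) (hT' ▸ h1 hk)
      intro z hz _
      refine ⟨0, Submodule.zero_mem _, ?_⟩
      have hz0 : z = 0 := by
        ext q
        by_contra hq
        obtain ⟨X, _, hX, _⟩ := Sys.mem_Ch.1 hz q hq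
        exact hno X hX
      rw [hz0, map_zero]
    · obtain ⟨j, hj⟩ := Finset.nonempty_iff_ne_empty.2 h
      rw [Finset.mem_sdiff] at hj
      have hT1 : insert j T ⊆ E.S m0 := Finset.insert_subset hj.1 hT
      have hlt : (E.S m0 \ insert j T).card < n := by
        rw [← hn]
        refine Finset.card_lt_card ?_
        rw [Finset.ssubset_iff_of_subset (Finset.sdiff_subset_sdiff subset_rfl
          (Finset.subset_insert _ _))]
        exact ⟨j, Finset.mem_sdiff.2 hj, by simp⟩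
      have ih1 := ih _ hlt (insert j T) rfl hT1
      have e3 := Ex_P3 (j := j) hE hm h2 hrec i hi
      -- the cells of `P2`
      have e2 : Sys.Ex (S := RWS) (RWS.nm E) (P2 θ E m0 T j) i := by
        refine Pool.Agent.TH553.J769.Final.Ex_of_sub_quot (P2_inv hE hm T j) (P3_inv hE hm j)
          (NT_inv hE hm (insert j T)) (P2_cvx hE hm T j) ?_ ?_ ?_ e3 ih1
        · intro X
          constructor
          · rintro ⟨hX, hX2⟩
            by_cases hjX : j ∈ RW.S X m0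
            · left
              refine ⟨hX.1, ?_⟩
              have h3 : ¬ 2 ≤ (RW.S X m0).card := fun h => hX2 ⟨hjX, h⟩
              have h4 : (RW.S X m0).card = 1 := by
                have := Finset.card_pos.2 ⟨j, hjX⟩
                omega
              obtain ⟨k, hk⟩ := Finset.card_eq_one.1 h4
              rw [hk] at hjX ⊢
              rw [Finset.mem_singleton.1 hjX]
            · right
              refine ⟨hX.1, ?_⟩
              rw [Finset.disjoint_insert_right]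
              exact ⟨hjX, hX.2⟩
          · rintro (hX | hX)
            · refine ⟨⟨hX.1, ?_⟩, ?_⟩
              · rw [hX.2, Finset.disjoint_singleton_left]
                exact hj.2
              · rw [hX.2]; simp
            · have h3 := hX.2
              rw [Finset.disjoint_insert_right] at h3
              exact ⟨⟨hX.1, h3.2⟩, fun h => h3.1 h.1⟩
        · intro X hX hX'
          have h3 := hX'.2
          rw [hX.2] at h3
          simp at h3
        · intro X hX a ha h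
          refine ⟨h.1.1, ?_⟩
          have h3 : RW.S X m0 ⊆ RW.S (RWS.dl X a) m0 := S_mono hX.1 hm (Finset.mem_sdiff.1 ha).2
          rw [hX.2, Finset.singleton_subset_iff] at h3
          have h4 : ¬ 2 ≤ (RW.S (RWS.dl X a) m0).card := fun h5 => h.2 ⟨h3, h5⟩
          have h5 : (RW.S (RWS.dl X a) m0).card = 1 := by
            have := Finset.card_pos.2 ⟨j, h3⟩
            omega
          obtain ⟨k, hk⟩ := Finset.card_eq_one.1 h5
          rw [hk] at h3 ⊢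
          rw [Finset.mem_singleton.1 h3]
      refine Pool.Agent.TH553.J769.Final.Ex_of_NH (P1 := P1 θ E m0 T j) (P2 := P2 θ E m0 T j)
        (NT_inv hE hm T) (P1_inv hE hm T j) (P2_inv hE hm T j) (NT_cvx hE hm T) ?_ ?_
        (sub_P1 hm T j) (NH_P1 hE hm hj.2 i) e2
      · intro X
        unfold P1 P2
        tauto
      · intro X hX hX'
        exact hX'.2 hX.2

end main

/-- reduction of the vanishing theorem to the case of at most one puncture in every region -/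
theorem G_of_df {θ : Perm Sy}
    (hD : ∀ E : RW, EnvR θ E → E.df = 0 → ∀ i : ℕ, (i : ℤ) < E.rk →
      Sys.Ex (S := RWS) (RWS.nm E) (OvR θ E) i) :
    ∀ E : RW, EnvR θ E → ∀ i : ℕ, (i : ℤ) < E.rk →
      Sys.Ex (S := RWS) (RWS.nm E) (OvR θ E) i := by
  intro E
  induction hn : E.df using Nat.strong_induction_on generalizing E with
  | _ n ih =>
    intro hE i hi
    by_cases h0 : n = 0
    · exact hD E hE (hn.trans h0) i hi
    · have hdf : E.df ≠ 0 := by omega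
      obtain ⟨m0, hm0, hc⟩ : ∃ m0 ∈ E.reps, (E.S m0).card - 1 ≠ 0 := by
        by_contra hcon
        push Not at hcon
        exact hdf (Finset.sum_eq_zero hcon)
      have hm : m0 ∈ E.w.x := by
        unfold RW.reps at hm0
        classical
        exact List.mem_toFinset.1 (Finset.mem_filter.1 hm0).1
      have h1 := Ex_NT hE hm (by omega) (fun Y hY hlt i hi => ih _ (hn ▸ hlt) Y rfl hY i hi) i hi
        ∅ (Finset.empty_subset _)
      refine Ex_congr (fun X => ?_) h1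
      unfold NT
      simp

end Pool.Agent.TH295.J986
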