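import Mathlib
import Pool.Agent.W809.CI.Defs

/-!
Linear growth of the coindex of the spaces of `p`-periodic points.

Idea. Let `y` be a non-constant `p`-periodic sequence in `ℝ ^ M`, scaled so that the largest
increment is `1/2`, and let `τ k ∈ [0, 1)` be positive only if the `k`-th increment is larger than
`1/6`. Let `h` be the `p`-periodic solution of `h k = (1 - τ k) (h (k - 1) + 1)`. Then consecutive
terms of the sequence `(exp (i π h k), exp (2 π i y k))` have distance at least `1`.
-/

set_option autoImplicit false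

namespace Pool.Agent.TH295.LC

open Topology Pool.Agent.W809.CI

/-! ### The system -/

/-- The torus of dimension `M + 1`. -/
abbrev Tor (M : ℕ) : Type := Fin (M + 1) → Circle

/-- Sequences in the torus whose consecutive terms have distance at least `1`. -/
def XS (M : ℕ) : Set (ℤ → Tor M) := {x | ∀ k, 1 ≤ dist (x k) (x (k + 1))}

theorem isClosed_XS (M : ℕ) : IsClosed (XS M) := by
  have : XS M = ⋂ k : ℤ, {x | 1 ≤ dist (x k) (x (k + 1))} := by
    ext x; simp [XS]
  rw [this]
  refine isClosed_iInter fun k => ?_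
  exact isClosed_le continuous_const ((continuous_apply k).dist (continuous_apply (k + 1)))

/-- The shift. -/
def sh (M : ℕ) : XS M ≃ₜ XS M where
  toFun x := ⟨fun k => x.1 (k + 1), fun k => x.2 (k + 1)⟩
  invFun x := ⟨fun k => x.1 (k - 1), fun k => by
    have h := x.2 (k - 1)
    rw [show k - 1 + 1 = k + 1 - 1 by ring] at h
    exact h⟩
  left_inv x := by
    apply Subtype.ext
    funext k
    show x.1 (k - 1 + 1) = x.1 k
    rw [sub_add_cancel]
  right_inv x := by
    apply Subtype.ext
    funext k
    show x.1 (k + 1 - 1) = x.1 k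
    rw [add_sub_cancel_right]
  continuous_toFun := by
    refine Continuous.subtype_mk (continuous_pi fun k => ?_) _
    exact (continuous_apply (k + 1)).comp continuous_subtype_val
  continuous_invFun := by
    refine Continuous.subtype_mk (continuous_pi fun k => ?_) _
    exact (continuous_apply (k - 1)).comp continuous_subtype_val

theorem sh_apply {M : ℕ} (x : XS M) (k : ℤ) : (sh M x).1 k = x.1 (k + 1) := rfl

theorem sh_pow {M : ℕ} (n : ℕ) (x : XS M) (k : ℤ) : ((sh M ^ n) x).1 k = x.1 (k + n) := by
  induction n generalizing k with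
  | zero => simp
  | succ n ih =>
    rw [pow_succ', Homeomorph.mul_apply, sh_apply, ih,
      show k + 1 + (n : ℤ) = k + ((n + 1 : ℕ) : ℤ) by push_cast; ring]

theorem sh_free {M : ℕ} (x : XS M) : sh M x ≠ x := by
  intro h
  have h1 := x.2 0
  have h2 : x.1 (0 + 1) = x.1 0 := by
    rw [← sh_apply x 0, h]
  rw [h2, dist_self] at h1
  linarith

/-! ### The phase -/

section phase

variable {p : ℕ} [NeZero p]

/-- The sum of products in the formula for `h`. -/
noncomputable def HH (c : ZMod p → ℝ) (k : ZMod p) : ℝ :=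
  ∑ l ∈ Finset.range p, ∏ i ∈ Finset.range (l + 1), c (k - (i : ZMod p))

/-- The periodic solution `h` of `h k = c k (h (k - 1) + 1)`. -/
noncomputable def hh (c : ZMod p → ℝ) (k : ZMod p) : ℝ := HH c k / (1 - ∏ g, c g)

theorem prod_all (c : ZMod p → ℝ) (k : ZMod p) :
    ∏ i ∈ Finset.range p, c (k - (i : ZMod p)) = ∏ g, c g := by
  refine Finset.prod_bij (fun i _ => k - (i : ZMod p)) (fun _ _ => Finset.mem_univ _) ?_ ?_ ?_
  · intro i hi j hj h
    have h1 : (i : ZMod p) = j := by simpa using h
    have h2 := congrArg ZMod.val h1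
    rwa [ZMod.val_cast_of_lt (Finset.mem_range.1 hi),
      ZMod.val_cast_of_lt (Finset.mem_range.1 hj)] at h2
  · intro g _
    refine ⟨(k - g).val, Finset.mem_range.2 (ZMod.val_lt _), ?_⟩
    rw [ZMod.natCast_zmod_val]
    ring
  · intro _ _
    rfl

theorem hh_step (c : ZMod p → ℝ) (k : ZMod p) (hk : c k = 1) (hP : ∏ g, c g ≠ 1) :
    hh c k = hh c (k - 1) + 1 := by
  have hne : (1 - ∏ g, c g) ≠ 0 := fun h => hP (by linarith)
  have h1 : ∀ l : ℕ, ∏ i ∈ Finset.range (l + 1), c (k - (i : ZMod p)) =
      ∏ i ∈ Finset.range l, c (k - 1 - (i : ZMod p)) := by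
    intro l
    rw [Finset.prod_range_succ']
    simp only [Nat.cast_zero, sub_zero, hk, mul_one]
    refine Finset.prod_congr rfl fun i _ => ?_
    congr 1
    push_cast
    ring
  have h2 : HH c k = ∑ l ∈ Finset.range p, ∏ i ∈ Finset.range l, c (k - 1 - (i : ZMod p)) :=
    Finset.sum_congr rfl fun l _ => h1 l
  have h3 : HH c (k - 1) + 1 = HH c k + ∏ g, c g := by
    have h4 := Finset.sum_range_succ (fun l => ∏ i ∈ Finset.range l, c (k - 1 - (i : ZMod p))) p
    have h5 := Finset.sum_range_succ' (fun l => ∏ i ∈ Finset.range l, c (k - 1 - (i : ZMod p))) p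
    rw [prod_all, ← h2] at h4
    rw [Finset.prod_range_zero] at h5
    rw [← h4, h5]
    rfl
  unfold hh
  rw [div_add_one hne, div_left_inj' hne]
  linarith

theorem hh_shift (c : ZMod p → ℝ) (k : ZMod p) : hh (fun g => c (g + 1)) k = hh c (k + 1) := by
  unfold hh HH
  have h1 : ∏ g, c (g + 1) = ∏ g, c g := Fintype.prod_equiv (Equiv.addRight 1) _ _ fun _ => rfl
  rw [h1]
  congr 1
  refine Finset.sum_congr rfl fun l _ => Finset.prod_congr rfl fun i _ => ?_
  beta_reduce
  rw [show k - (i : ZMod p) + 1 = k + 1 - (i : ZMod p) by ring]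

end phase

/-! ### Distances on the circle -/

theorem dist_circle (a b : ℝ) :
    dist (Circle.exp a) (Circle.exp b) = 2 * |Real.sin ((a - b) / 2)| := by
  have h1 : dist (Circle.exp a) (Circle.exp b) = ‖(Circle.exp a : ℂ) - (Circle.exp b : ℂ)‖ := by
    rw [← dist_eq_norm]
    rfl
  rw [h1, Circle.coe_exp, Circle.coe_exp]
  have h2 : Complex.exp (a * Complex.I) - Complex.exp (b * Complex.I) =
      Complex.exp (b * Complex.I) * (Complex.exp (Complex.I * ((a - b : ℝ) : ℂ)) - 1) := by
    rw [mul_sub, ← Complex.exp_add, mul_one]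
    congr 2
    push_cast
    ring
  rw [h2, norm_mul, Complex.norm_exp_ofReal_mul_I, one_mul, Complex.norm_exp_I_mul_ofReal_sub_one,
    norm_mul, Real.norm_eq_abs, Real.norm_eq_abs, abs_two]

theorem dist_of_step {a b : ℝ} (h : a = b + 1) :
    1 ≤ dist (Circle.exp (Real.pi * b)) (Circle.exp (Real.pi * a)) := by
  rw [dist_circle, h]
  have : (Real.pi * b - Real.pi * (b + 1)) / 2 = -(Real.pi / 2) := by ring
  rw [this, Real.sin_neg, Real.sin_pi_div_two]
  norm_num

theorem dist_of_incr {a b : ℝ} (h1 : 1 / 6 ≤ |a - b|) (h2 : |a - b| ≤ 1 / 2) :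
    1 ≤ dist (Circle.exp (2 * Real.pi * b)) (Circle.exp (2 * Real.pi * a)) := by
  rw [dist_circle]
  have h3 : |Real.sin ((2 * Real.pi * b - 2 * Real.pi * a) / 2)| =
      |Real.sin (Real.pi * |a - b|)| := by
    rcases abs_cases (a - b) with h | h
    · rw [h.1, ← abs_neg, ← Real.sin_neg]
      congr 2
      ring
    · rw [h.1]
      congr 2
      ring
  have hpi := Real.pi_pos
  rw [h3]
  have h4 : Real.sin (Real.pi / 6) ≤ Real.sin (Real.pi * |a - b|) := by
    refine Real.sin_le_sin_of_le_of_le_pi_div_two (by linarith) ?_ ?_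
    · nlinarith
    · nlinarith
  rw [Real.sin_pi_div_six] at h4
  have h5 := le_abs_self (Real.sin (Real.pi * |a - b|))
  linarith

/-! ### The sequence attached to a non-constant periodic sequence -/

section seq

variable {p M : ℕ} [NeZero p]

/-- increments -/
noncomputable def inc (y : Fin M → ZMod p → ℝ) : Fin M → ZMod p → ℝ :=
  fun m k => y m k - y m (k - 1)

/-- twice the largest increment -/
noncomputable def DD (y : Fin M → ZMod p → ℝ) : ℝ := 2 * ‖inc y‖

/-- the factors `1 - τ` -/
noncomputable def cc (y : Fin M → ZMod p → ℝ) (k : ZMod p) : ℝ :=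
  ∏ m, (1 - max 0 (|inc y m k / DD y| - 1 / 6))

/-- the sequence -/
noncomputable def sq (y : Fin M → ZMod p → ℝ) (k : ZMod p) : Tor M :=
  Fin.cons (Circle.exp (Real.pi * hh (cc y) k)) fun m => Circle.exp (2 * Real.pi * (y m k / DD y))

theorem inc_le (y : Fin M → ZMod p → ℝ) (m : Fin M) (k : ZMod p) : |inc y m k| ≤ ‖inc y‖ :=
  (norm_le_pi_norm (inc y m) k).trans (norm_le_pi_norm (inc y) m)

variable {y : Fin M → ZMod p → ℝ} (hy : inc y ≠ 0)

include hy

theorem DD_pos : 0 < DD y := by
  have := norm_pos_iff.2 hy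
  unfold DD
  linarith

theorem inc_div_le (m : Fin M) (k : ZMod p) : |inc y m k / DD y| ≤ 1 / 2 := by
  have h := DD_pos hy
  rw [abs_div, abs_of_pos h, div_le_iff₀ h]
  have := inc_le y m k
  unfold DD
  linarith

theorem factor_pos (m : Fin M) (k : ZMod p) : 0 < 1 - max 0 (|inc y m k / DD y| - 1 / 6) := by
  have h := inc_div_le hy m k
  have : max 0 (|inc y m k / DD y| - 1 / 6) ≤ 1 / 3 := max_le (by norm_num) (by linarith)
  linarith

omit hy in
theorem factor_le (m : Fin M) (k : ZMod p) : 1 - max 0 (|inc y m k / DD y| - 1 / 6) ≤ 1 := by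
  have := le_max_left 0 (|inc y m k / DD y| - 1 / 6)
  linarith

theorem cc_pos (k : ZMod p) : 0 < cc y k := Finset.prod_pos fun m _ => factor_pos hy m k

theorem cc_le (k : ZMod p) : cc y k ≤ 1 :=
  Finset.prod_le_one (fun m _ => (factor_pos hy m k).le) fun m _ => factor_le m k

theorem exists_big : ∃ m k, 1 / 6 < |inc y m k / DD y| := by
  by_contra hcon
  push Not at hcon
  have h := DD_pos hy
  have hn : 0 < ‖inc y‖ := norm_pos_iff.2 hy
  have h1 : ‖inc y‖ ≤ ‖inc y‖ / 3 := by
    refine (pi_norm_le_iff_of_nonneg (by positivity)).2 fun m => ?_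
    refine (pi_norm_le_iff_of_nonneg (by positivity)).2 fun k => ?_
    have h2 := hcon m k
    rw [abs_div, abs_of_pos h, div_le_iff₀ h] at h2
    rw [Real.norm_eq_abs]
    unfold DD at h2
    linarith
  linarith

theorem cc_lt {m : Fin M} {k : ZMod p} (h : 1 / 6 < |inc y m k / DD y|) : cc y k < 1 := by
  have h1 : 0 < |inc y m k / DD y| - 1 / 6 := by linarith
  have h2 : cc y k = (1 - max 0 (|inc y m k / DD y| - 1 / 6)) *
      ∏ m' ∈ Finset.univ.erase m, (1 - max 0 (|inc y m' k / DD y| - 1 / 6)) :=
    (Finset.mul_prod_erase _ _ (Finset.mem_univ m)).symm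
  have h3 : ∏ m' ∈ Finset.univ.erase m, (1 - max 0 (|inc y m' k / DD y| - 1 / 6)) ≤ 1 :=
    Finset.prod_le_one (fun m _ => (factor_pos hy m k).le) fun m _ => factor_le m k
  have h4 := factor_pos hy m k
  rw [max_eq_right h1.le] at h2 h4
  rw [h2]
  nlinarith

omit hy in
theorem big_of_cc_ne {k : ZMod p} (h : cc y k ≠ 1) : ∃ m, 1 / 6 < |inc y m k / DD y| := by
  by_contra hcon
  push Not at hcon
  apply h
  refine Finset.prod_eq_one fun m _ => ?_
  rw [max_eq_left (by linarith [hcon m]), sub_zero]

theorem prod_lt : ∏ g, cc y g < 1 := by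
  obtain ⟨m, k, hk⟩ := exists_big hy
  have h1 := cc_lt hy hk
  have h2 : ∏ g, cc y g = cc y k * ∏ g ∈ Finset.univ.erase k, cc y g :=
    (Finset.mul_prod_erase _ _ (Finset.mem_univ k)).symm
  have h3 : ∏ g ∈ Finset.univ.erase k, cc y g ≤ 1 :=
    Finset.prod_le_one (fun g _ => (cc_pos hy g).le) fun g _ => cc_le hy g
  have h4 := cc_pos hy k
  rw [h2]
  nlinarith

/-- Consecutive terms of the sequence have distance at least `1`. -/
theorem sq_dist (k : ZMod p) : 1 ≤ dist (sq y k) (sq y (k + 1)) := by
  by_cases hk : cc y (k + 1) = 1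
  · have h1 := hh_step (cc y) (k + 1) hk (prod_lt hy).ne
    rw [add_sub_cancel_right] at h1
    exact (dist_of_step h1).trans (dist_le_pi_dist (sq y k) (sq y (k + 1)) 0)
  · obtain ⟨m, hm⟩ := big_of_cc_ne hk
    have h1 : inc y m (k + 1) / DD y = y m (k + 1) / DD y - y m k / DD y := by
      unfold inc
      rw [add_sub_cancel_right, sub_div]
    have h2 := inc_div_le hy m (k + 1)
    rw [h1] at hm h2
    exact (dist_of_incr hm.le h2).trans (dist_le_pi_dist (sq y k) (sq y (k + 1)) m.succ)

end seq

section shift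

variable {p M : ℕ} [NeZero p] (y : Fin M → ZMod p → ℝ)

theorem inc_shift (m : Fin M) (k : ZMod p) : inc (fun m k => y m (k + 1)) m k = inc y m (k + 1) := by
  unfold inc
  beta_reduce
  rw [show k - 1 + 1 = k + 1 - 1 by ring]

theorem norm_inc_shift : ‖inc (fun m k => y m (k + 1))‖ = ‖inc y‖ := by
  apply le_antisymm
  · refine (pi_norm_le_iff_of_nonneg (norm_nonneg _)).2 fun m => ?_
    refine (pi_norm_le_iff_of_nonneg (norm_nonneg _)).2 fun k => ?_
    rw [inc_shift]
    exact inc_le y m (k + 1)
  · refine (pi_norm_le_iff_of_nonneg (norm_nonneg _)).2 fun m => ?_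
    refine (pi_norm_le_iff_of_nonneg (norm_nonneg _)).2 fun k => ?_
    have h := inc_shift y m (k - 1)
    rw [sub_add_cancel] at h
    rw [← h]
    exact inc_le _ m (k - 1)

theorem DD_shift : DD (fun m k => y m (k + 1)) = DD y := by
  unfold DD
  rw [norm_inc_shift]

theorem cc_shift : cc (fun m k => y m (k + 1)) = fun k => cc y (k + 1) := by
  funext k
  unfold cc
  simp only [inc_shift, DD_shift]

theorem sq_shift (k : ZMod p) : sq (fun m k => y m (k + 1)) k = sq y (k + 1) := by
  unfold sq
  rw [cc_shift, hh_shift, DD_shift]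

end shift

section cont

variable {p M : ℕ} [NeZero p] {W : Type} [TopologicalSpace W]

theorem sq_cont (y : W → Fin M → ZMod p → ℝ) (hc : Continuous y) (hy : ∀ w, inc (y w) ≠ 0)
    (k : ZMod p) : Continuous fun w => sq (y w) k := by
  have h0 : ∀ m k, Continuous fun w => y w m k := fun m k =>
    (continuous_apply k).comp ((continuous_apply m).comp hc)
  have h1 : Continuous fun w => inc (y w) :=
    continuous_pi fun m => continuous_pi fun k => (h0 m k).sub (h0 m (k - 1))
  have h2 : Continuous fun w => DD (y w) := continuous_const.mul h1.norm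
  have h3 : ∀ w, DD (y w) ≠ 0 := fun w => (DD_pos (hy w)).ne'
  have h4 : ∀ m k, Continuous fun w => inc (y w) m k := fun m k =>
    (continuous_apply k).comp ((continuous_apply m).comp h1)
  have h5 : ∀ k, Continuous fun w => cc (y w) k := by
    intro k
    refine continuous_finsetProd _ fun m _ => ?_
    exact continuous_const.sub (continuous_const.max (((h4 m k).div h2 h3).abs.sub continuous_const))
  have h6 : Continuous fun w => HH (cc (y w)) k :=
    continuous_finsetSum _ fun l _ => continuous_finsetProd _ fun i _ => h5 _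
  have h7 : Continuous fun w => 1 - ∏ g, cc (y w) g :=
    continuous_const.sub (continuous_finsetProd _ fun g _ => h5 g)
  have h8 : Continuous fun w => hh (cc (y w)) k :=
    h6.div h7 fun w => by
      have := prod_lt (hy w)
      intro h
      linarith
  refine continuous_pi fun j => ?_
  refine Fin.cases ?_ (fun m => ?_) j
  · exact Circle.exp.continuous.comp (continuous_const.mul h8)
  · exact Circle.exp.continuous.comp (continuous_const.mul ((h0 m k).div h2 h3))

end cont

/-! ### The masses of a point of the join -/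

section join

variable {p M n : ℕ} [hp : Fact p.Prime]

/-- The mass at `-k` of the `m`-th group of `p - 1` join coordinates. -/
noncomputable def mass (w : EJoin p n) (m : Fin M) (k : ZMod p) : ℝ :=
  ∑ i ∈ Finset.univ.filter (fun i : Fin (n + 1) => i.1 / (p - 1) = m.1), w.1 i (-k)

theorem mass_shift (w : EJoin p n) (m : Fin M) (k : ZMod p) :
    mass w.shift m k = mass w m (k + 1) := by
  unfold mass
  refine Finset.sum_congr rfl fun i _ => ?_
  show w.1 i (-k - 1) = w.1 i (-(k + 1))
  rw [show -k - 1 = -(k + 1) by ring]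

theorem mass_cont : Continuous fun w : EJoin p n => (mass w : Fin M → ZMod p → ℝ) := by
  refine continuous_pi fun m => continuous_pi fun k => continuous_finsetSum _ fun i _ => ?_
  exact (continuous_apply (-k)).comp ((continuous_apply i).comp continuous_subtype_val)

theorem inc_mass_ne (hn : n + 1 ≤ M * (p - 1)) (w : EJoin p n) :
    inc (mass w : Fin M → ZMod p → ℝ) ≠ 0 := by
  intro hinc
  have hp1 : 0 < p - 1 := by have := hp.out.two_le; omega
  -- all masses are constant
  have hconst : ∀ m : Fin M, ∀ k : ZMod p, mass w m k = mass w m 0 := by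
    intro m
    have h1 : ∀ j : ℕ, mass w m (j : ZMod p) = mass w m 0 := by
      intro j
      induction j with
      | zero => simp
      | succ j ih =>
        have h2 := congrFun (congrFun hinc m) ((j + 1 : ℕ) : ZMod p)
        unfold inc at h2
        simp only [Pi.zero_apply] at h2
        rw [show ((j + 1 : ℕ) : ZMod p) - 1 = (j : ZMod p) by push_cast; ring, ih] at h2
        linarith
    intro k
    have := h1 k.val
    rwa [ZMod.natCast_zmod_val] at this
  -- every mass vanishes
  have hzero : ∀ m : Fin M, mass w m 0 = 0 := by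
    intro m
    by_contra hne
    have hnon : ∀ k : ZMod p, ∃ i : Fin (n + 1), i.1 / (p - 1) = m.1 ∧ w.1 i (-k) ≠ 0 := by
      intro k
      have h1 : mass w m k ≠ 0 := by rw [hconst m k]; exact hne
      obtain ⟨i, hi, hi'⟩ := Finset.exists_ne_zero_of_sum_ne_zero h1
      exact ⟨i, (Finset.mem_filter.1 hi).2, hi'⟩
    choose φ h1 h2 using hnon
    have hinj : Function.Injective fun k : ZMod p =>
        (⟨(φ k).1 % (p - 1), Nat.mod_lt _ hp1⟩ : Fin (p - 1)) := by
      intro k k' h
      have h3 : (φ k).1 % (p - 1) = (φ k').1 % (p - 1) := congrArg Fin.val h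
      have h4 : φ k = φ k' := by
        apply Fin.ext
        rw [← Nat.div_add_mod (φ k).1 (p - 1), ← Nat.div_add_mod (φ k').1 (p - 1), h3, h1, h1]
      have h5 := w.2.2.2 (φ k) (-k) (-k') (h2 k) (by rw [h4]; exact h2 k')
      exact neg_injective h5
    have hcard := Fintype.card_le_of_injective _ hinj
    rw [ZMod.card, Fintype.card_fin] at hcard
    omega
  -- but the total mass is one
  have htot : ∑ m : Fin M, ∑ k : ZMod p, mass w m k = 1 := by
    have h1 : ∀ k : ZMod p, ∑ m : Fin M, mass w m k = ∑ i, w.1 i (-k) := by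
      intro k
      unfold mass
      have hlt : ∀ i : Fin (n + 1), i.1 / (p - 1) < M := by
        intro i
        rw [Nat.div_lt_iff_lt_mul hp1]
        exact lt_of_lt_of_le i.2 hn
      rw [← Finset.sum_fiberwise (s := (Finset.univ : Finset (Fin (n + 1))))
        (g := fun i => (⟨i.1 / (p - 1), hlt i⟩ : Fin M))]
      refine Finset.sum_congr rfl fun m _ => ?_
      refine Finset.sum_congr ?_ fun _ _ => rfl
      ext i
      simp [Fin.ext_iff]
    rw [Finset.sum_comm]
    rw [Finset.sum_congr rfl fun k _ => h1 k, Finset.sum_comm]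
    refine Eq.trans ?_ w.2.2.1
    refine Finset.sum_congr rfl fun i _ => ?_
    exact Fintype.sum_equiv (Equiv.neg _) _ _ fun _ => rfl
  rw [Finset.sum_eq_zero fun m _ => Finset.sum_eq_zero fun k _ => by
    rw [hconst m k, hzero m]] at htot
  exact zero_ne_one htot

end join

/-! ### The equivariant map -/

theorem hasComap (M p n : ℕ) [hp : Fact p.Prime] (hn : n + 1 ≤ M * (p - 1)) :
    HasComap (sh M) p n := by
  have hX : ∀ w : EJoin p n, (fun k : ℤ => sq (mass w : Fin M → ZMod p → ℝ) (k : ZMod p)) ∈ XS M := by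
    intro w k
    have := sq_dist (inc_mass_ne hn w) (k : ZMod p)
    simp only
    push_cast
    exact this
  refine ⟨fun w => ⟨⟨fun k : ℤ => sq (mass w : Fin M → ZMod p → ℝ) (k : ZMod p), hX w⟩, ?_⟩, ?_, ?_⟩
  · apply Subtype.ext
    funext k
    rw [sh_pow]
    simp
  · refine Continuous.subtype_mk (Continuous.subtype_mk (continuous_pi fun k => ?_) _) _
    exact sq_cont _ mass_cont (fun w => inc_mass_ne hn w) _
  · intro w
    apply Subtype.ext
    apply Subtype.ext
    funext k
    show sq (mass w.shift : Fin M → ZMod p → ℝ) (k : ZMod p) =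
      sq (mass w : Fin M → ZMod p → ℝ) ((k + 1 : ℤ) : ZMod p)
    have h1 : (mass w.shift : Fin M → ZMod p → ℝ) = fun m k => mass w m (k + 1) := by
      funext m k
      exact mass_shift w m k
    rw [h1, sq_shift]
    push_cast
    rfl

/-- For every `M` there is a fixed-point free system with `coind_p P_p ≥ M (p - 1) - 1` for all
primes `p`. -/
theorem coind (M : ℕ) :
    ∃ (X : Type) (_ : TopologicalSpace X) (T : X ≃ₜ X),
      CompactSpace X ∧ TopologicalSpace.MetrizableSpace X ∧ (∀ x, T x ≠ x) ∧
      ∀ (p : ℕ) [Fact p.Prime] (n : ℕ), n + 1 ≤ M * (p - 1) → HasComap T p n := by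
  refine ⟨XS M, inferInstance, sh M, ?_, inferInstance, sh_free, ?_⟩
  · exact isCompact_iff_compactSpace.mp (isClosed_XS M).isCompact
  · intro p hp n hn
    exact hasComap M p n hn

end Pool.Agent.TH295.LC
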